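import Pool.Agent.Y234.GS.StmA

/-!
# Project GS: top level sections versus cocycles (S_TOP, S_REPC, S_RCH)
-/

set_option autoImplicit false

namespace Pool.Agent.Y968.GS

open Pool.Agent.Y234.GS

section basic

variable {ι κ L O : Type} [LinearOrder ι] [LinearOrder κ] [CommRing O] [Field L] [Algebra O L]

theorem dd_map (e : ι ↪o κ) (h : Finset κ → L) (S : Finset ι) :
    dd (fun S => h (S.map e.toEmbedding)) S = dd h (S.map e.toEmbedding) := by
  unfold dd
  rw [Finset.sum_map]
  refine Finset.sum_congr rfl (fun i hi => ?_)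
  have h1 : (S.map e.toEmbedding).erase (e.toEmbedding i) = (S.erase i).map e.toEmbedding := by
    rw [Finset.map_erase]
  have h2 : ((S.map e.toEmbedding).filter (fun u => u < e.toEmbedding i)).card =
      (S.filter (fun u => u < i)).card := by
    rw [Finset.filter_map, Finset.card_map]
    congr 1
    ext u
    simp
  rw [h1, h2]

theorem sec_map (e : ι ↪o κ) (W : Submodule O L) (f : κ → L) (m : ℤ) (S : Finset ι) :
    Sec W f m (S.map e.toEmbedding) = Sec W (fun i => f (e i)) m S := by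
  unfold Sec
  rw [Finset.card_map, Finset.prod_map]
  rfl

theorem coch_res (e : ι ↪o κ) (W : Submodule O L) (f : κ → L) (m : ℤ) (j : ℕ)
    (h : Finset κ → L) (hh : Coch W f m j h) :
    Coch W (fun i => f (e i)) m j (fun S => h (S.map e.toEmbedding)) := by
  intro S hS
  rw [← sec_map e W f m S]
  exact hh _ (by rw [Finset.card_map, hS])

theorem cocyc_res (e : ι ↪o κ) (W : Submodule O L) (f : κ → L) (m : ℤ) (j : ℕ)
    (h : Finset κ → L) (hh : Cocyc W f m j h) :
    Cocyc W (fun i => f (e i)) m j (fun S => h (S.map e.toEmbedding)) := by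
  refine ⟨coch_res e W f m j h hh.1, fun S hS => ?_⟩
  rw [dd_map]
  exact hh.2 _ (by rw [Finset.card_map, hS])

theorem cobd_res (e : ι ↪o κ) (W : Submodule O L) (f : κ → L) (m : ℤ) (j : ℕ)
    (h : Finset κ → L) (hh : Cobd W f m j h) :
    Cobd W (fun i => f (e i)) m j (fun S => h (S.map e.toEmbedding)) := by
  obtain ⟨b, hb, hb2⟩ := hh
  refine ⟨fun S => b (S.map e.toEmbedding), coch_res e W f m (j - 1) b hb, fun S hS => ?_⟩
  rw [dd_map]
  exact hb2 _ (by rw [Finset.card_map, hS])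

theorem cobd_congr (W : Submodule O L) (f : ι → L) (m : ℤ) (j : ℕ)
    (c c' : Finset ι → L) (hc : Cobd W f m j c) (h : ∀ S : Finset ι, S.card = j → c' S = c S) :
    Cobd W f m j c' := by
  obtain ⟨b, hb, hb2⟩ := hc
  exact ⟨b, hb, fun S hS => by rw [h S hS, hb2 S hS]⟩

theorem sec_zsmul (W : Submodule O L) (f : ι → L) (m : ℤ) (S : Finset ι) (z : ℤ) (a : L)
    (ha : a ∈ Sec W f m S) : z • a ∈ Sec W f m S := by
  obtain ⟨N, e, h1, h2⟩ := ha
  refine ⟨N, e, h1, ?_⟩
  rw [mul_smul_comm]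
  exact zsmul_mem h2 z

theorem sec_smul (W : Submodule O L) (f : ι → L) (m : ℤ) (S : Finset ι) (z : O) (a : L)
    (ha : a ∈ Sec W f m S) : z • a ∈ Sec W f m S := by
  obtain ⟨N, e, h1, h2⟩ := ha
  refine ⟨N, e, h1, ?_⟩
  rw [mul_smul_comm]
  exact (W ^ e).smul_mem z h2

theorem prod_mem_pow (W : Submodule O L) (f : ι → L) (hf : ∀ i, f i ∈ W) (S : Finset ι) :
    (∏ i ∈ S, f i) ∈ W ^ S.card := by
  classical
  induction S using Finset.induction_on with
  | empty => simpa using Submodule.one_le.1 (le_refl (1 : Submodule O L))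
  | insert a S ha ih =>
    rw [Finset.prod_insert ha, Finset.card_insert_of_notMem ha, pow_succ']
    exact Submodule.mul_mem_mul (hf a) ih

theorem pow_mem_pow' (W : Submodule O L) (a : L) (e n : ℕ) (ha : a ∈ W ^ e) :
    a ^ n ∈ W ^ (e * n) := by
  rw [pow_mul]
  exact Submodule.pow_mem_pow _ ha n

theorem sec_add (W : Submodule O L) (f : ι → L) (hf : ∀ i, f i ∈ W) (m : ℤ) (S : Finset ι)
    (a b : L) (ha : a ∈ Sec W f m S) (hb : b ∈ Sec W f m S) : a + b ∈ Sec W f m S := by
  obtain ⟨N, e, h1, h2⟩ := ha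
  obtain ⟨N', e', h1', h2'⟩ := hb
  have key : ∀ (N e N' : ℕ) (a : L), (∏ i ∈ S, f i) ^ N * a ∈ W ^ e →
      (∏ i ∈ S, f i) ^ (N + N') * a ∈ W ^ (e + S.card * N') := by
    intro N e N' a h
    have h3 := pow_mem_pow' W _ _ N' (prod_mem_pow W f hf S)
    have h4 := Submodule.mul_mem_mul h h3
    rw [← pow_add] at h4
    have h5 : (∏ i ∈ S, f i) ^ (N + N') * a = (∏ i ∈ S, f i) ^ N * a * (∏ i ∈ S, f i) ^ N' := by
      ring
    rw [h5]
    exact h4
  have hee : e + S.card * N' = e' + S.card * N := by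
    have : ((e + S.card * N' : ℕ) : ℤ) = ((e' + S.card * N : ℕ) : ℤ) := by
      push_cast
      rw [h1, h1']
      ring
    exact_mod_cast this
  refine ⟨N + N', e + S.card * N', ?_, ?_⟩
  · push_cast
    rw [h1]
    ring
  · rw [mul_add]
    refine add_mem (key N e N' a h2) ?_
    rw [hee, add_comm N N']
    exact key N' e' N b h2'

theorem sec_mul (W : Submodule O L) (f : ι → L) (m : ℤ) (S : Finset ι) (n : ℕ) (z a : L)
    (hz : z ∈ W ^ n) (ha : a ∈ Sec W f m S) : z * a ∈ Sec W f (m + n) S := by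
  obtain ⟨N, e, h1, h2⟩ := ha
  refine ⟨N, e + n, ?_, ?_⟩
  · push_cast
    rw [h1]
    ring
  · have h3 := Submodule.mul_mem_mul h2 hz
    rw [← pow_add] at h3
    have h5 : (∏ i ∈ S, f i) ^ N * (z * a) = (∏ i ∈ S, f i) ^ N * a * z := by ring
    rw [h5]
    exact h3

theorem sec_pow (W : Submodule O L) (f : ι → L) (m : ℤ) (S : Finset ι) (q : ℕ) (a : L)
    (ha : a ∈ Sec W f m S) : a ^ q ∈ Sec W f ((q : ℕ) * m) S := by
  obtain ⟨N, e, h1, h2⟩ := ha
  refine ⟨N * q, e * q, ?_, ?_⟩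
  · push_cast
    rw [h1]
    ring
  · have h3 := pow_mem_pow' W _ _ q h2
    have h5 : (∏ i ∈ S, f i) ^ (N * q) * a ^ q = ((∏ i ∈ S, f i) ^ N * a) ^ q := by
      rw [mul_pow, pow_mul]
    rw [h5]
    exact h3

theorem dd_add (c c' : Finset ι → L) (S : Finset ι) : dd (c + c') S = dd c S + dd c' S := by
  unfold dd
  rw [← Finset.sum_add_distrib]
  refine Finset.sum_congr rfl (fun i _ => ?_)
  rw [Pi.add_apply, smul_add]

theorem dd_mul (z : L) (c : Finset ι → L) (S : Finset ι) :
    dd (fun S => z * c S) S = z * dd c S := by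
  unfold dd
  rw [Finset.mul_sum]
  refine Finset.sum_congr rfl (fun i _ => ?_)
  rw [mul_smul_comm]

theorem dd_smul (z : O) (c : Finset ι → L) (S : Finset ι) :
    dd (fun S => z • c S) S = z • dd c S := by
  unfold dd
  rw [Finset.smul_sum]
  refine Finset.sum_congr rfl (fun i _ => ?_)
  rw [smul_comm]

theorem dd_pow (p e : ℕ) (hp : p.Prime) (hL : CharP L p) (c : Finset ι → L) (S : Finset ι) :
    dd (fun S => c S ^ p ^ e) S = dd c S ^ p ^ e := by
  haveI : Fact p.Prime := ⟨hp⟩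
  haveI := hL
  unfold dd
  rw [sum_pow_char_pow p e]
  refine Finset.sum_congr rfl (fun i _ => ?_)
  rw [zsmul_eq_mul, zsmul_eq_mul, mul_pow]
  congr 1
  push_cast
  rw [← pow_mul, mul_comm, pow_mul, neg_one_pow_char_pow L]

end basic

theorem rch : S_RCH := by
  intro O k1 L ι _ _ _ _ _ _ _ _ _ D W V y x u ψ m c v hD hWV hxV hu hy hrep
  have hpow : ∀ (e : ℕ) (a : L), a ∈ W ^ e → a ∈ V ^ e := by
    intro e
    induction e with
    | zero =>
      intro a ha
      rw [pow_zero] at ha ⊢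
      obtain ⟨r, hr⟩ := Submodule.mem_one.1 ha
      refine Submodule.mem_one.2 ⟨algebraMap O k1 r, ?_⟩
      rw [← hr, ← IsScalarTower.algebraMap_apply]
    | succ e ih =>
      intro a ha
      rw [pow_succ] at ha ⊢
      refine Submodule.mul_induction_on ha ?_ ?_
      · intro a ha b hb
        exact Submodule.mul_mem_mul (ih a ha) (hWV b hb)
      · intro a b ha hb
        exact add_mem ha hb
  obtain ⟨h, h1, h2, h3⟩ := hrep
  refine ⟨h, ⟨?_, h1.2⟩, h2, h3⟩
  intro S hS
  obtain ⟨N, e, h4, h5⟩ := h1.1 S hS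
  refine ⟨N, e, h4, ?_⟩
  have h6 := hpow _ _ h5
  set U : k1 := ∏ k ∈ S, Sum.elim u (fun _ => (1 : k1)) (ofLex k) with hU
  have hU0 : U ≠ 0 := by
    rw [hU]
    refine Finset.prod_ne_zero_iff.2 (fun k _ => ?_)
    rcases ofLex k with k' | k'
    · exact hu k'
    · exact one_ne_zero
  have hprod : (∏ k ∈ S, Sum.elim y ψ (ofLex k)) = U • ∏ k ∈ S, Sum.elim x ψ (ofLex k) := by
    rw [Algebra.smul_def, hU, map_prod, ← Finset.prod_mul_distrib]
    refine Finset.prod_congr rfl (fun k _ => ?_)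
    rcases ofLex k with k' | k'
    · simp only [Sum.elim_inl]
      rw [hy k', Algebra.smul_def]
    · simp only [Sum.elim_inr, map_one, one_mul]
  rw [hprod, smul_pow, smul_mul_assoc] at h6
  exact ((V ^ e).smul_mem_iff (pow_ne_zero N hU0)).1 h6

theorem repc : S_REPC := by
  intro O L ι _ _ _ _ _ D W x ψ m hD hx hψ
  have hf : ∀ k : ι ⊕ₗ Fin D, Sum.elim x ψ (ofLex k) ∈ W := by
    intro k
    rcases ofLex k with k' | k'
    · exact hx k'
    · exact hψ k'
  refine ⟨?_, ?_, ?_, ?_, ?_, ?_, ?_, ?_⟩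
  · rintro c v c' v' ⟨h, ⟨h1, h1'⟩, h2, h3⟩ ⟨k, ⟨k1, k1'⟩, k2, k3⟩
    refine ⟨h + k, ⟨?_, ?_⟩, ?_, ?_⟩
    · intro S hS
      exact sec_add W _ hf m S _ _ (h1 S hS) (k1 S hS)
    · intro S hS
      rw [dd_add, h1' S hS, k1' S hS, add_zero]
    · intro S hS
      rw [Pi.add_apply, Pi.add_apply, h2 S hS, k2 S hS]
    · rw [Pi.add_apply, h3, k3]
  · rintro n z c v hz ⟨h, ⟨h1, h1'⟩, h2, h3⟩
    refine ⟨fun S => z * h S, ⟨?_, ?_⟩, ?_, ?_⟩
    · intro S hS
      exact sec_mul W _ m S n _ _ hz (h1 S hS)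
    · intro S hS
      rw [dd_mul, h1' S hS, mul_zero]
    · intro S hS
      simp only
      rw [h2 S hS]
    · simp only
      rw [h3]
  · rintro p e c v hp hL ⟨h, ⟨h1, h1'⟩, h2, h3⟩
    refine ⟨fun S => h S ^ p ^ e, ⟨?_, ?_⟩, ?_, ?_⟩
    · intro S hS
      exact sec_pow W _ m S (p ^ e) _ (h1 S hS)
    · intro S hS
      rw [dd_pow p e hp hL, h1' S hS, zero_pow (pow_ne_zero e hp.ne_zero)]
    · intro S hS
      simp only
      rw [h2 S hS]
    · simp only
      rw [h3]
  · rintro a c v ⟨h, ⟨h1, h1'⟩, h2, h3⟩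
    refine ⟨fun S => a • h S, ⟨?_, ?_⟩, ?_, ?_⟩
    · intro S hS
      exact sec_smul W _ m S a _ (h1 S hS)
    · intro S hS
      rw [dd_smul, h1' S hS, smul_zero]
    · intro S hS
      simp only
      rw [h2 S hS]
    · simp only
      rw [h3]
  · rintro v v' ⟨r, hr, hv⟩ ⟨r', hr', hv'⟩
    refine ⟨fun k => r k + r' k, fun k => sec_add W ψ hψ m _ _ _ (hr k) (hr' k), ?_⟩
    rw [Finset.sum_add_distrib, ← hv, ← hv']
  · rintro n z v hz ⟨r, hr, hv⟩
    refine ⟨fun k => z * r k, fun k => sec_mul W ψ m _ n _ _ hz (hr k), ?_⟩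
    rw [← Finset.mul_sum, ← hv]
  · rintro p e v hp hL ⟨r, hr, hv⟩
    haveI : Fact p.Prime := ⟨hp⟩
    haveI := hL
    refine ⟨fun k => r k ^ p ^ e, fun k => sec_pow W ψ m _ (p ^ e) _ (hr k), ?_⟩
    rw [hv, sum_pow_char_pow p e]
  · rintro a v ⟨r, hr, hv⟩
    refine ⟨fun k => a • r k, fun k => sec_smul W ψ m _ a _ (hr k), ?_⟩
    rw [← Finset.smul_sum, ← hv]

/-- The order embedding of the first summand. -/
def eL (ι : Type) [LinearOrder ι] (D : ℕ) : ι ↪o (ι ⊕ₗ Fin D) :=
  OrderEmbedding.ofStrictMono (fun i => toLex (Sum.inl i)) Sum.Lex.inl_strictMono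

/-- The order embedding of the second summand. -/
def eR (ι : Type) [LinearOrder ι] (D : ℕ) : Fin D ↪o (ι ⊕ₗ Fin D) :=
  OrderEmbedding.ofStrictMono (fun i => toLex (Sum.inr i)) Sum.Lex.inr_strictMono

theorem bd_iff {L O : Type} [CommRing O] [Field L] [Algebra O L] (D : ℕ) (hD : 2 ≤ D)
    (W : Submodule O L) (ψ : Fin D → L) (m : ℤ) (c : Finset (Fin D) → L) :
    Cobd W ψ m D c ↔ Bd W ψ m (c Finset.univ) := by
  have hcard : ∀ k : Fin D, (Finset.univ.erase k).card = D - 1 := by
    intro k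
    rw [Finset.card_erase_of_mem (Finset.mem_univ k), Finset.card_univ, Fintype.card_fin]
  constructor
  · rintro ⟨b, hb, hb2⟩
    refine ⟨fun k => ((-1 : ℤ) ^ ((Finset.univ : Finset (Fin D)).filter
      (fun u => u < k)).card) • b (Finset.univ.erase k), ?_, ?_⟩
    · intro k
      exact sec_zsmul W ψ m _ _ _ (hb _ (hcard k))
    · rw [hb2 Finset.univ (by simp)]
      rfl
  · rintro ⟨r, hr, hv⟩
    classical
    have hinj : ∀ k l : Fin D, (Finset.univ.erase k : Finset (Fin D)) = Finset.univ.erase l →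
        k = l := by
      intro k l h
      by_contra hne
      have : l ∈ (Finset.univ.erase k : Finset (Fin D)) :=
        Finset.mem_erase.2 ⟨fun h => hne h.symm, Finset.mem_univ l⟩
      rw [h] at this
      exact (Finset.mem_erase.1 this).1 rfl
    set b : Finset (Fin D) → L := fun S => ∑ k, if S = Finset.univ.erase k then
      ((-1 : ℤ) ^ ((Finset.univ : Finset (Fin D)).filter (fun u => u < k)).card) • r k else 0
      with hb
    have hbk : ∀ k, b (Finset.univ.erase k) =
        ((-1 : ℤ) ^ ((Finset.univ : Finset (Fin D)).filter (fun u => u < k)).card) • r k := by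
      intro k
      rw [hb]
      simp only
      rw [Finset.sum_eq_single k]
      · rw [if_pos rfl]
      · intro l _ hl
        rw [if_neg]
        intro h
        exact hl (hinj k l h).symm
      · intro h
        exact absurd (Finset.mem_univ k) h
    refine ⟨b, ?_, ?_⟩
    · intro S hS
      have h1 : Sᶜ.card = 1 := by
        rw [Finset.card_compl, hS, Fintype.card_fin]
        omega
      obtain ⟨k, hk⟩ := Finset.card_eq_one.1 h1
      have h2 : S = Finset.univ.erase k := by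
        rw [← compl_compl S, hk]
        ext u
        simp
      rw [h2, hbk]
      exact sec_zsmul W ψ m _ _ _ (hr k)
    · intro S hS
      have h1 : S = Finset.univ := by
        rw [← Finset.card_eq_iff_eq_univ, Fintype.card_fin, hS]
      rw [h1, hv]
      unfold dd
      refine Finset.sum_congr rfl (fun k _ => ?_)
      rw [hbk, smul_smul, ← mul_pow]
      simp

theorem top : S_REF → S_TOP := by
  intro href O L ι _ _ _ _ _ D W x ψ m hD hxW hx0 hψW hψ0 hcx hcψ
  have hfW : ∀ k : ι ⊕ₗ Fin D, Sum.elim x ψ (ofLex k) ∈ W := by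
    intro k
    rcases ofLex k with k' | k'
    · exact hxW k'
    · exact hψW k'
  have hf0 : ∀ k : ι ⊕ₗ Fin D, Sum.elim x ψ (ofLex k) ≠ 0 := by
    intro k
    rcases ofLex k with k' | k'
    · exact hx0 k'
    · exact hψ0 k'
  have hL := href O L ι (ι ⊕ₗ Fin D) (eL ι D) W (fun k => Sum.elim x ψ (ofLex k)) m D hfW hf0
    hcx hD
  have hR := href O L (Fin D) (ι ⊕ₗ Fin D) (eR ι D) W (fun k => Sum.elim x ψ (ofLex k)) m D hfW
    hf0 hcψ hD
  refine ⟨?_, ?_, ?_⟩
  · intro v hv
    classical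
    have hc : Cocyc W ψ m D (fun S => if S = Finset.univ then v else 0) := by
      refine ⟨?_, ?_⟩
      · intro S hS
        have h1 : S = Finset.univ := by
          rw [← Finset.card_eq_iff_eq_univ, Fintype.card_fin, hS]
        rw [h1]
        simp only [if_true]
        exact hv
      · intro S hS
        have h1 := Finset.card_le_univ S
        rw [Fintype.card_fin, hS] at h1
        omega
    obtain ⟨h, h1, h2⟩ := hR.1 _ hc
    refine ⟨fun S => h (S.map (eL ι D).toEmbedding), cocyc_res (eL ι D) W _ m D h h1, h, h1,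
      fun S hS => rfl, ?_⟩
    have h3 := h2 Finset.univ (by simp)
    rw [if_pos rfl] at h3
    exact h3
  · intro c hc
    obtain ⟨h, h1, h2⟩ := hL.1 _ hc
    refine ⟨h ((Finset.univ : Finset (Fin D)).map (eR ι D).toEmbedding), ?_, h, h1, ?_, rfl⟩
    · have h3 := coch_res (eR ι D) W _ m D h h1.1 Finset.univ (by simp)
      exact h3
    · intro S hS
      exact h2 S hS
  · rintro c v hc ⟨h, h1, h2, h3⟩
    have hv : h ((Finset.univ : Finset (Fin D)).map (eR ι D).toEmbedding) = v := h3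
    have hLc : ∀ S : Finset ι, S.card = D → h (S.map (eL ι D).toEmbedding) = c S :=
      fun S hS => h2 S hS
    have e1 : Cobd W x m D c ↔ Cobd W (fun k => Sum.elim x ψ (ofLex k)) m D h := by
      constructor
      · intro hcc
        refine hL.2 h h1 ?_
        exact cobd_congr W _ m D c _ hcc (fun S hS => hLc S hS)
      · intro hcc
        exact cobd_congr W _ m D _ c (cobd_res (eL ι D) W _ m D h hcc)
          (fun S hS => (hLc S hS).symm)
    have e2 : Cobd W ψ m D (fun S => h (S.map (eR ι D).toEmbedding)) ↔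
        Cobd W (fun k => Sum.elim x ψ (ofLex k)) m D h :=
      ⟨fun hcc => hR.2 h h1 hcc, fun hcc => cobd_res (eR ι D) W _ m D h hcc⟩
    rw [e1, ← e2, bd_iff D hD, hv]

end Pool.Agent.Y968.GS
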