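import Mathlib

/-!
# Project GS: homomorphisms from the charts of a model
-/

set_option autoImplicit false

namespace Pool.Agent.Y968.GS

open MvPolynomial

section chart

variable {K L ι : Type} [Field K] [Field L] [Algebra K L]

/-- The chart `x i ≠ 0`. -/
abbrev Ch (K : Type) {L ι : Type} [Field K] [Field L] [Algebra K L] (x : ι → L) (i : ι) :
    Subalgebra K L :=
  Algebra.adjoin K (insert (x i)⁻¹ (Set.range x))

theorem x_mem (x : ι → L) (i l : ι) : x l ∈ Ch K x i :=
  Algebra.subset_adjoin (Set.mem_insert_of_mem _ ⟨l, rfl⟩)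

theorem inv_mem (x : ι → L) (i : ι) : (x i)⁻¹ ∈ Ch K x i :=
  Algebra.subset_adjoin (Set.mem_insert _ _)

theorem chart_form (x : ι → L) (i : ι) (hi : x i ≠ 0) (b : L) (hb : b ∈ Ch K x i) :
    ∃ (N : ℕ) (G : MvPolynomial ι K), b * x i ^ N = aeval x G := by
  refine Algebra.adjoin_induction ?_ ?_ ?_ ?_ hb
  · rintro b (rfl | ⟨l, rfl⟩)
    · exact ⟨1, 1, by rw [pow_one, inv_mul_cancel₀ hi, map_one]⟩
    · exact ⟨0, X l, by rw [pow_zero, mul_one, aeval_X]⟩
  · intro r
    exact ⟨0, C r, by rw [pow_zero, mul_one, aeval_C]⟩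
  · rintro a b _ _ ⟨N, G, h⟩ ⟨N', G', h'⟩
    refine ⟨N + N', G * X i ^ N' + G' * X i ^ N, ?_⟩
    rw [map_add, map_mul, map_mul, map_pow, map_pow, aeval_X, ← h, ← h', pow_add]
    ring
  · rintro a b _ _ ⟨N, G, h⟩ ⟨N', G', h'⟩
    refine ⟨N + N', G * G', ?_⟩
    rw [map_mul, ← h, ← h', pow_add]
    ring

theorem lift_chart (x : ι → L) (i : ι) (hi : x i ≠ 0) {R' : Type} [CommRing R'] [Algebra K R']
    (z : ι → R') (hz : ∀ G : MvPolynomial ι K, aeval x G = 0 → aeval z G = 0)
    (hu : IsUnit (z i)) :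
    ∃ f : Ch K x i →ₐ[K] R', ∀ l, f ⟨x l, x_mem x i l⟩ = z l := by
  obtain ⟨u, hu⟩ := hu
  have hex : ∀ b : Ch K x i, ∃ r : R', ∀ (N : ℕ) (G : MvPolynomial ι K),
      (b : L) * x i ^ N = aeval x G → r * z i ^ N = aeval z G := by
    intro b
    obtain ⟨N, G, h⟩ := chart_form x i hi b b.2
    refine ⟨aeval z G * (↑(u⁻¹) : R') ^ N, ?_⟩
    intro N' G' h'
    have h1 : aeval x (G * X i ^ N' - G' * X i ^ N) = 0 := by
      rw [map_sub, map_mul, map_mul, map_pow, map_pow, aeval_X, ← h, ← h']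
      ring
    have h2 := hz _ h1
    rw [map_sub, map_mul, map_mul, map_pow, map_pow, aeval_X, sub_eq_zero] at h2
    have h3 : (↑(u⁻¹) : R') ^ N * z i ^ N = 1 := by
      rw [← mul_pow, ← hu, Units.inv_mul, one_pow]
    calc aeval z G * (↑(u⁻¹) : R') ^ N * z i ^ N'
        = (aeval z G * z i ^ N') * (↑(u⁻¹) : R') ^ N := by ring
      _ = (aeval z G' * z i ^ N) * (↑(u⁻¹) : R') ^ N := by rw [h2]
      _ = aeval z G' * ((↑(u⁻¹) : R') ^ N * z i ^ N) := by ring
      _ = aeval z G' := by rw [h3, mul_one]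
  choose f hf using hex
  have hcan : ∀ (N : ℕ) (a b : R'), a * z i ^ N = b * z i ^ N → a = b := by
    intro N a b h
    have h1 : IsUnit (z i ^ N) := IsUnit.pow N ⟨u, hu⟩
    exact h1.mul_right_cancel h
  refine ⟨{ toFun := f, map_one' := ?_, map_mul' := ?_, map_zero' := ?_, map_add' := ?_,
            commutes' := ?_ }, ?_⟩
  · have := hf 1 0 1 (by simp)
    simpa using this
  · intro a b
    obtain ⟨N, G, h⟩ := chart_form x i hi a a.2
    obtain ⟨N', G', h'⟩ := chart_form x i hi b b.2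
    have h1 := hf (a * b) (N + N') (G * G') (by
      rw [map_mul, ← h, ← h']
      push_cast
      ring)
    apply hcan (N + N')
    rw [h1, map_mul, ← hf a N G h, ← hf b N' G' h']
    ring
  · have := hf 0 0 0 (by simp)
    simpa using this
  · intro a b
    obtain ⟨N, G, h⟩ := chart_form x i hi a a.2
    obtain ⟨N', G', h'⟩ := chart_form x i hi b b.2
    have h1 := hf (a + b) (N + N') (G * X i ^ N' + G' * X i ^ N) (by
      rw [map_add, map_mul, map_mul, map_pow, map_pow, aeval_X, ← h, ← h']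
      push_cast
      ring)
    apply hcan (N + N')
    rw [h1, map_add, map_mul, map_mul, map_pow, map_pow, aeval_X, ← hf a N G h, ← hf b N' G' h']
    ring
  · intro r
    have := hf (algebraMap K _ r) 0 (C r) (by simp)
    simpa using this
  · intro l
    have := hf ⟨x l, x_mem x i l⟩ 0 (X l) (by simp)
    simpa using this

theorem chart_ext (x : ι → L) (i : ι) (hi : x i ≠ 0) {R' : Type} [CommRing R'] [Algebra K R']
    (f g : Ch K x i →ₐ[K] R') (h : ∀ l, f ⟨x l, x_mem x i l⟩ = g ⟨x l, x_mem x i l⟩) : f = g := by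
  refine AlgHom.ext (fun b => ?_)
  obtain ⟨N, G, hG⟩ := chart_form x i hi b b.2
  have h1 : b * (⟨x i, x_mem x i i⟩ : Ch K x i) ^ N =
      aeval (fun l => (⟨x l, x_mem x i l⟩ : Ch K x i)) G := by
    apply Subtype.ext
    have h2 := MvPolynomial.aeval_algebraMap_apply L
      (fun l => (⟨x l, x_mem x i l⟩ : Ch K x i)) G
    change (b : L) * x i ^ N = _
    rw [hG]
    exact h2
  have hu : IsUnit (⟨x i, x_mem x i i⟩ : Ch K x i) := by
    refine IsUnit.of_mul_eq_one ⟨(x i)⁻¹, inv_mem x i⟩ ?_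
    apply Subtype.ext
    exact mul_inv_cancel₀ hi
  have hu2 : IsUnit (f ⟨x i, x_mem x i i⟩ ^ N) := (hu.map f).pow N
  have h3 : f b * f ⟨x i, x_mem x i i⟩ ^ N = g b * f ⟨x i, x_mem x i i⟩ ^ N := by
    calc f b * f ⟨x i, x_mem x i i⟩ ^ N = f (b * (⟨x i, x_mem x i i⟩ : Ch K x i) ^ N) := by
          rw [map_mul, map_pow]
      _ = g (b * (⟨x i, x_mem x i i⟩ : Ch K x i) ^ N) := by
          rw [h1, comp_aeval_apply, comp_aeval_apply]
          congr 2
          funext l
          exact h l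
      _ = g b * f ⟨x i, x_mem x i i⟩ ^ N := by
          rw [map_mul, map_pow, h i]
  exact hu2.mul_right_cancel h3

end chart

/-- The chain rule. -/
theorem der_aeval {K B M ι : Type} [Field K] [CommRing B] [Algebra K B] [AddCommGroup M]
    [Module B M] [Module K M] [IsScalarTower K B M] [Fintype ι]
    (δ : Derivation K B M) (z : ι → B) (G : MvPolynomial ι K) :
    δ (aeval z G) = ∑ l, aeval z (pderiv l G) • δ (z l) := by
  classical
  induction G using MvPolynomial.induction_on with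
  | C r => simp
  | add p q hp hq =>
    rw [map_add, map_add, hp, hq, ← Finset.sum_add_distrib]
    refine Finset.sum_congr rfl (fun l _ => ?_)
    rw [map_add, map_add, add_smul]
  | mul_X p j hp =>
    rw [map_mul, aeval_X, Derivation.leibniz, hp, Finset.smul_sum]
    have h1 : ∀ l, aeval z (pderiv l (p * X j)) • δ (z l) =
        (if l = j then aeval z p • δ (z j) else 0) + z j • aeval z (pderiv l p) • δ (z l) := by
      intro l
      rw [Derivation.leibniz, smul_eq_mul, smul_eq_mul, pderiv_X, map_add, map_mul, map_mul,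
        aeval_X, add_smul, mul_smul, mul_smul]
      congr 1
      by_cases h : l = j
      · subst h
        simp
      · rw [if_neg h, Pi.single_eq_of_ne (Ne.symm h)]
        simp
    rw [Finset.sum_congr rfl (fun l _ => h1 l), Finset.sum_add_distrib, Finset.sum_ite_eq']
    simp

end Pool.Agent.Y968.GS
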