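import Mathlib

/-!
# Project GS: the transcendence degree drops
-/

set_option autoImplicit false

namespace Pool.Agent.Y968.GS

open MvPolynomial

theorem trdeg_drop {K M F ι : Type} [Field K] [Field M] [Algebra K M] [Field F] [Algebra K F]
    (X' : ι → M) (z : ι → F) (D : ℕ) (hD : Algebra.trdeg K M = (D : Cardinal))
    (hrel : ∀ G : MvPolynomial ι K, aeval X' G = 0 → aeval z G = 0)
    (T : MvPolynomial ι K) (hT : aeval X' T ≠ 0) (hTz : aeval z T = 0)
    (hgen : ∀ a : F, ∃ G H : MvPolynomial ι K, aeval z H ≠ 0 ∧ a * aeval z H = aeval z G) :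
    ∃ D' : ℕ, D' < D ∧ Algebra.trdeg K F = (D' : Cardinal) := by
  have hmem : ∀ G : MvPolynomial ι K, aeval z G ∈ Algebra.adjoin K (Set.range z) := by
    intro G
    rw [Algebra.adjoin_range_eq_range_aeval]
    exact ⟨G, rfl⟩
  haveI halg : Algebra.IsAlgebraic (Algebra.adjoin K (Set.range z)) F := by
    refine ⟨fun a => ?_⟩
    obtain ⟨G, H, hH, hGH⟩ := hgen a
    refine ⟨Polynomial.C ⟨aeval z H, hmem H⟩ * Polynomial.X - Polynomial.C ⟨aeval z G, hmem G⟩,
      ?_, ?_⟩
    · intro h0
      have h1 := congrArg (fun p => Polynomial.coeff p 1) h0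
      simp only [Polynomial.coeff_sub, Polynomial.coeff_C_mul, Polynomial.coeff_X_one, mul_one,
        Polynomial.coeff_zero] at h1
      rw [Polynomial.coeff_C_ne_zero one_ne_zero, sub_zero] at h1
      exact hH (congrArg Subtype.val h1)
    · rw [map_sub, map_mul, Polynomial.aeval_C, Polynomial.aeval_X, Polynomial.aeval_C]
      change aeval z H * a - aeval z G = 0
      rw [← hGH]
      ring
  obtain ⟨t, htz, ht⟩ := exists_isTranscendenceBasis_subset (R := K) (Set.range z)
  have hj : ∀ a : t, ∃ j : ι, z j = (a : F) := fun a => htz a.2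
  choose j hj using hj
  have hcomp : ∀ p : MvPolynomial t K, aeval z (rename j p) = aeval (fun a : t => (a : F)) p := by
    intro p
    rw [aeval_rename]
    congr 2
    funext a
    exact hj a
  have hv : AlgebraicIndependent K (fun a : t => X' (j a)) := by
    rw [algebraicIndependent_iff]
    intro p hp
    have h1 : aeval X' (rename j p) = 0 := by
      rw [aeval_rename]
      exact hp
    have h2 := hrel _ h1
    rw [hcomp] at h2
    exact (algebraicIndependent_iff.1 ht.1) p h2
  have htr : Transcendental (Algebra.adjoin K (Set.range (fun a : t => X' (j a)))) (aeval X' T) := by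
    rintro ⟨p, hp0, hp⟩
    obtain ⟨q, hq, hdvd⟩ := Polynomial.exists_eq_pow_rootMultiplicity_mul_and_not_dvd p hp0 0
    rw [Polynomial.C_0, sub_zero] at hq hdvd
    rw [Polynomial.X_dvd_iff] at hdvd
    rw [hq, map_mul, map_pow, Polynomial.aeval_X] at hp
    have hq0 : Polynomial.aeval (aeval X' T) q = 0 := by
      rcases mul_eq_zero.1 hp with h | h
      · exact absurd h (pow_ne_zero _ hT)
      · exact h
    have hc : ∀ n, ∃ c : MvPolynomial t K, aeval (fun a : t => X' (j a)) c = (q.coeff n : M) := by
      intro n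
      have h1 : (q.coeff n : M) ∈ (aeval (fun a : t => X' (j a)) :
          MvPolynomial t K →ₐ[K] M).range :=
        (le_of_eq (Algebra.adjoin_range_eq_range_aeval K (fun a : t => X' (j a))))
          (q.coeff n).2
      exact h1
    choose c hc using hc
    have h2 : aeval X' (∑ n ∈ Finset.range (q.natDegree + 1), rename j (c n) * T ^ n) = 0 := by
      rw [map_sum, ← hq0, Polynomial.aeval_eq_sum_range]
      refine Finset.sum_congr rfl (fun n _ => ?_)
      rw [map_mul, map_pow, aeval_rename, Algebra.smul_def]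
      congr 1
      exact hc n
    have h3 := hrel _ h2
    rw [map_sum, Finset.sum_eq_single 0] at h3
    · rw [map_mul, pow_zero, map_one, mul_one, hcomp] at h3
      have h4 := (algebraicIndependent_iff.1 ht.1) _ h3
      have h5 := hc 0
      rw [h4, map_zero] at h5
      exact hdvd (Subtype.ext h5.symm)
    · intro n _ hn
      rw [map_mul, map_pow, hTz, zero_pow hn, mul_zero]
    · intro h
      exact absurd (Finset.mem_range.2 (Nat.succ_pos _)) h
  have hopt := (hv.option_iff_transcendental (aeval X' T)).2 htr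
  have hle := hopt.cardinalMk_le_trdeg
  rw [hD, Cardinal.mk_option] at hle
  have hF := ht.cardinalMk_eq_trdeg
  have hlt : Cardinal.mk t < Cardinal.aleph0 :=
    lt_of_le_of_lt (le_trans (self_le_add_right _ _) hle) (Cardinal.natCast_lt_aleph0)
  obtain ⟨n, hn⟩ := Cardinal.lt_aleph0.1 hlt
  rw [hn] at hle hF
  refine ⟨n, ?_, hF.symm⟩
  have : ((n + 1 : ℕ) : Cardinal) ≤ (D : Cardinal) := by
    push_cast
    exact hle
  exact_mod_cast this

end Pool.Agent.Y968.GS
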