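import Mathlib

/-!
# Project GS: homogeneous components and homogeneous minimal primes
-/

set_option autoImplicit false

namespace Pool.Agent.Y968.GS

open MvPolynomial

attribute [local instance] MvPolynomial.gradedAlgebra

section hom

variable {K ι : Type} [Field K]

theorem decompose_eq (G : MvPolynomial ι K) (d : ℕ) :
    (DirectSum.decompose (homogeneousSubmodule ι K) G d : MvPolynomial ι K) =
      homogeneousComponent d G :=
  decomposition.decompose'_apply G d

theorem hc_mul (Q H : MvPolynomial ι K) (n : ℕ) (hQ : Q.IsHomogeneous n) (d : ℕ) :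
    homogeneousComponent (n + d) (Q * H) = Q * homogeneousComponent d H := by
  rw [← decompose_eq, ← decompose_eq,
    DirectSum.coe_decompose_mul_of_left_mem_of_le (homogeneousSubmodule ι K) (i := n) hQ
      (Nat.le_add_right n d), Nat.add_sub_cancel_left]

theorem hc_mul_lt (Q H : MvPolynomial ι K) (n : ℕ) (hQ : Q.IsHomogeneous n) (d : ℕ)
    (hd : d < n) : homogeneousComponent d (Q * H) = 0 := by
  rw [← decompose_eq,
    DirectSum.coe_decompose_mul_of_left_mem_of_not_le (homogeneousSubmodule ι K) (i := n) hQ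
      (not_le.2 hd)]

theorem hc_self (G : MvPolynomial ι K) (n : ℕ) (hG : G.IsHomogeneous n) :
    homogeneousComponent n G = G := by
  have h := hc_mul G 1 n hG 0
  rw [mul_one, add_zero] at h
  rw [h]
  simp

theorem hc_other (G : MvPolynomial ι K) (n d : ℕ) (hG : G.IsHomogeneous n) (h : d ≠ n) :
    homogeneousComponent d G = 0 := by
  rw [homogeneousComponent_of_mem (m := d) (n := n) hG, if_neg h]

/-- A minimal prime of a homogeneous ideal is homogeneous. -/
theorem hom_mem (I q : Ideal (MvPolynomial ι K))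
    (hI : ∀ G ∈ I, ∀ d : ℕ, homogeneousComponent d G ∈ I) (hq : q ∈ I.minimalPrimes)
    (G : MvPolynomial ι K) (hG : G ∈ q) (d : ℕ) : homogeneousComponent d G ∈ q := by
  have hIh : I.IsHomogeneous (homogeneousSubmodule ι K) := by
    intro d G hG
    rw [decompose_eq]
    exact hI G hG d
  have hqp : q.IsPrime := hq.1.1
  have h1 : (q.homogeneousCore (homogeneousSubmodule ι K)).toIdeal.IsPrime :=
    Ideal.IsPrime.homogeneousCore hqp
  have h2 : I ≤ (q.homogeneousCore (homogeneousSubmodule ι K)).toIdeal := by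
    have h3 := Ideal.homogeneousCore_mono (homogeneousSubmodule ι K) hq.1.2
    have h4 := hIh.toIdeal_homogeneousCore_eq_self
    calc I = (I.homogeneousCore (homogeneousSubmodule ι K)).toIdeal := h4.symm
      _ ≤ _ := h3
  have h3 : q ≤ (q.homogeneousCore (homogeneousSubmodule ι K)).toIdeal :=
    hq.2 ⟨h1, h2⟩ (Ideal.toIdeal_homogeneousCore_le _ q)
  have h4 : (q.homogeneousCore (homogeneousSubmodule ι K)).toIdeal = q :=
    le_antisymm (Ideal.toIdeal_homogeneousCore_le _ q) h3
  have h5 : q.IsHomogeneous (homogeneousSubmodule ι K) := by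
    rw [← h4]
    exact (q.homogeneousCore (homogeneousSubmodule ι K)).isHomogeneous
  exact homogeneousComponent_mem_of_mem h5 hG d

/-- Homogeneous components and renaming of variables. -/
theorem hc_rename {κ : Type} (f : κ → ι) (G : MvPolynomial κ K) (d : ℕ) :
    homogeneousComponent d (rename f G) = rename f (homogeneousComponent d G) := by
  classical
  conv_lhs => rw [← sum_homogeneousComponent G]
  rw [map_sum, map_sum]
  have h1 : ∀ j ∈ Finset.range (G.totalDegree + 1),
      homogeneousComponent d (rename f (homogeneousComponent j G)) =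
        if j = d then rename f (homogeneousComponent d G) else 0 := by
    intro j _
    by_cases h : j = d
    · subst h
      rw [if_pos rfl]
      exact hc_self _ _ ((homogeneousComponent_isHomogeneous j G).rename_isHomogeneous)
    · rw [if_neg h]
      exact hc_other _ j d ((homogeneousComponent_isHomogeneous j G).rename_isHomogeneous)
        (Ne.symm h)
  rw [Finset.sum_congr rfl h1, Finset.sum_ite_eq']
  by_cases h : d ∈ Finset.range (G.totalDegree + 1)
  · rw [if_pos h]
  · rw [if_neg h]
    rw [Finset.mem_range, not_lt] at h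
    rw [homogeneousComponent_eq_zero d G (by omega), map_zero]

end hom

section lift

variable {K ι R : Type} [Field K] [CommRing R] [Algebra K R]

/-- The universal property of a ring of fractions of a quotient of the polynomial ring. -/
theorem lift_gen (r : ι → R) (i : ι)
    (hR : ∀ b : R, ∃ (N : ℕ) (G : MvPolynomial ι K), b * r i ^ N = aeval r G)
    {R' : Type} [CommRing R'] [Algebra K R'] (z : ι → R')
    (hz : ∀ G : MvPolynomial ι K, aeval r G = 0 → aeval z G = 0) (hu : IsUnit (z i)) :
    ∃ f : R →ₐ[K] R', ∀ l, f (r l) = z l := by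
  obtain ⟨u, hu⟩ := hu
  have hex : ∀ b : R, ∃ c : R', ∀ (N : ℕ) (G : MvPolynomial ι K),
      b * r i ^ N = aeval r G → c * z i ^ N = aeval z G := by
    intro b
    obtain ⟨N, G, h⟩ := hR b
    refine ⟨aeval z G * (↑(u⁻¹) : R') ^ N, ?_⟩
    intro N' G' h'
    have h1 : aeval r (G * X i ^ N' - G' * X i ^ N) = 0 := by
      rw [map_sub, map_mul, map_mul, map_pow, map_pow, aeval_X, ← h, ← h']
      ring
    have h2 := hz _ h1
    rw [map_sub, map_mul, map_mul, map_pow, map_pow, aeval_X, sub_eq_zero] at h2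
    have h3 : (↑(u⁻¹) : R') ^ N * z i ^ N = 1 := by
      rw [← mul_pow, ← hu, Units.inv_mul, one_pow]
    calc aeval z G * (↑(u⁻¹) : R') ^ N * z i ^ N'
        = (aeval z G * z i ^ N') * (↑(u⁻¹) : R') ^ N := by ring
      _ = (aeval z G' * z i ^ N) * (↑(u⁻¹) : R') ^ N := by rw [h2]
      _ = aeval z G' * ((↑(u⁻¹) : R') ^ N * z i ^ N) := by ring
      _ = aeval z G' := by rw [h3, mul_one]
  choose f hf using hex
  have hcan : ∀ (N : ℕ) (a b : R'), a * z i ^ N = b * z i ^ N → a = b := by
    intro N a b h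
    have h1 : IsUnit (z i ^ N) := IsUnit.pow N ⟨u, hu⟩
    exact h1.mul_right_cancel h
  refine ⟨{ toFun := f, map_one' := ?_, map_mul' := ?_, map_zero' := ?_, map_add' := ?_,
            commutes' := ?_ }, ?_⟩
  · have := hf 1 0 1 (by simp)
    simpa using this
  · intro a b
    obtain ⟨N, G, h⟩ := hR a
    obtain ⟨N', G', h'⟩ := hR b
    have h1 := hf (a * b) (N + N') (G * G') (by
      rw [map_mul, ← h, ← h']
      ring)
    apply hcan (N + N')
    rw [h1, map_mul, ← hf a N G h, ← hf b N' G' h']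
    ring
  · have := hf 0 0 0 (by simp)
    simpa using this
  · intro a b
    obtain ⟨N, G, h⟩ := hR a
    obtain ⟨N', G', h'⟩ := hR b
    have h1 := hf (a + b) (N + N') (G * X i ^ N' + G' * X i ^ N) (by
      rw [map_add, map_mul, map_mul, map_pow, map_pow, aeval_X, ← h, ← h']
      ring)
    apply hcan (N + N')
    rw [h1, map_add, map_mul, map_mul, map_pow, map_pow, aeval_X, ← hf a N G h, ← hf b N' G' h']
    ring
  · intro c
    have := hf (algebraMap K _ c) 0 (C c) (by simp)
    simpa using this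
  · intro l
    have := hf (r l) 0 (X l) (by simp)
    simpa using this

variable (r : ι → R) (i : ι) (I : Ideal (MvPolynomial ι K))

theorem ker_minimal (hunit : IsUnit (r i))
    (hR : ∀ b : R, ∃ (N : ℕ) (G : MvPolynomial ι K), b * r i ^ N = aeval r G)
    (hI : ∀ G ∈ I, aeval r G = 0) {F : Type} [Field F] [Algebra K F] (z : ι → F)
    (ρ : R →ₐ[K] F) (hρ : ∀ l, ρ (r l) = z l) (q : Ideal (MvPolynomial ι K))
    (hzq : ∀ G : MvPolynomial ι K, aeval z G = 0 ↔ G ∈ q) (hq : q ∈ I.minimalPrimes) :
    RingHom.ker ρ ∈ minimalPrimes R := by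
  have hval : ∀ G : MvPolynomial ι K, ρ (aeval r G) = aeval z G := by
    intro G
    rw [comp_aeval_apply]
    congr 2
    funext l
    exact hρ l
  refine ⟨⟨RingHom.ker_isPrime ρ, bot_le⟩, ?_⟩
  rintro p ⟨hp, -⟩ hle
  have hp' : (p.comap (aeval r : MvPolynomial ι K →ₐ[K] R)).IsPrime := hp.comap _
  have h1 : I ≤ p.comap (aeval r : MvPolynomial ι K →ₐ[K] R) := by
    intro G hG
    rw [Ideal.mem_comap, hI G hG]
    exact zero_mem _
  have h2 : p.comap (aeval r : MvPolynomial ι K →ₐ[K] R) ≤ q := by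
    intro G hG
    rw [← hzq, ← hval]
    exact hle hG
  have h3 := hq.2 ⟨hp', h1⟩ h2
  intro b hb
  obtain ⟨N, G, h⟩ := hR b
  have h4 : G ∈ q := by
    rw [← hzq, ← hval, ← h, map_mul, (RingHom.mem_ker.1 hb : ρ b = 0), zero_mul]
  have h5 : aeval r G ∈ p := h3 h4
  rw [← h] at h5
  rcases hp.mem_or_mem h5 with h6 | h6
  · exact h6
  · exact absurd ((Ideal.eq_top_of_isUnit_mem p h6 (hunit.pow N))) hp.ne_top

theorem minimal_is_ker (hunit : IsUnit (r i))
    (hR : ∀ b : R, ∃ (N : ℕ) (G : MvPolynomial ι K), b * r i ^ N = aeval r G)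
    (hI : ∀ G ∈ I, aeval r G = 0) (q' : Ideal R) (hq' : q' ∈ minimalPrimes R) :
    ∃ q ∈ I.minimalPrimes, X i ∉ q ∧ ∀ (F : Type) [Field F] [Algebra K F] (z : ι → F)
      (ρ : R →ₐ[K] F), (∀ l, ρ (r l) = z l) →
      (∀ G : MvPolynomial ι K, aeval z G = 0 ↔ G ∈ q) → RingHom.ker ρ = q' := by
  have hp := hq'.1.1
  have hp' : (q'.comap (aeval r : MvPolynomial ι K →ₐ[K] R)).IsPrime := hp.comap _
  have h1 : I ≤ q'.comap (aeval r : MvPolynomial ι K →ₐ[K] R) := by
    intro G hG
    rw [Ideal.mem_comap, hI G hG]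
    exact zero_mem _
  obtain ⟨q, hq, hle⟩ := Ideal.exists_minimalPrimes_le h1
  refine ⟨q, hq, ?_, ?_⟩
  · intro hX
    have h2 := hle hX
    rw [Ideal.mem_comap, aeval_X] at h2
    exact hp.ne_top (Ideal.eq_top_of_isUnit_mem q' h2 hunit)
  · intro F _ _ z ρ hρ hzq
    have hval : ∀ G : MvPolynomial ι K, ρ (aeval r G) = aeval z G := by
      intro G
      rw [comp_aeval_apply]
      congr 2
      funext l
      exact hρ l
    have h2 : RingHom.ker ρ ≤ q' := by
      intro b hb
      obtain ⟨N, G, h⟩ := hR b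
      have h4 : G ∈ q := by
        rw [← hzq, ← hval, ← h, map_mul, (RingHom.mem_ker.1 hb : ρ b = 0), zero_mul]
      have h5 : aeval r G ∈ q' := hle h4
      rw [← h] at h5
      rcases hp.mem_or_mem h5 with h6 | h6
      · exact h6
      · exact absurd ((Ideal.eq_top_of_isUnit_mem q' h6 (hunit.pow N))) hp.ne_top
    exact le_antisymm h2 (hq'.2 ⟨RingHom.ker_isPrime ρ, bot_le⟩ h2)

end lift

/-- The field of fractions of the quotient by a prime ideal. -/
theorem frac_field {K ι : Type} [Field K] (q : Ideal (MvPolynomial ι K)) (hq : q.IsPrime) :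
    ∃ (F : Type) (_ : Field F) (_ : Algebra K F) (z : ι → F),
      (∀ G : MvPolynomial ι K, aeval z G = 0 ↔ G ∈ q) ∧
      ∀ a : F, ∃ G H : MvPolynomial ι K, aeval z H ≠ 0 ∧ a * aeval z H = aeval z G := by
  haveI := hq
  have hval : ∀ G : MvPolynomial ι K,
      aeval (fun l => algebraMap (MvPolynomial ι K ⧸ q) (FractionRing (MvPolynomial ι K ⧸ q))
        (Ideal.Quotient.mk q (X l))) G =
      algebraMap (MvPolynomial ι K ⧸ q) (FractionRing (MvPolynomial ι K ⧸ q))
        (Ideal.Quotient.mk q G) := by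
    intro G
    have h1 : (aeval (fun l => algebraMap (MvPolynomial ι K ⧸ q)
        (FractionRing (MvPolynomial ι K ⧸ q)) (Ideal.Quotient.mk q (X l))) :
        MvPolynomial ι K →ₐ[K] _) =
        (IsScalarTower.toAlgHom K (MvPolynomial ι K ⧸ q)
          (FractionRing (MvPolynomial ι K ⧸ q))).comp (Ideal.Quotient.mkₐ K q) := by
      ext l
      simp
    rw [h1]
    rfl
  refine ⟨FractionRing (MvPolynomial ι K ⧸ q), inferInstance, inferInstance,
    fun l => algebraMap _ _ (Ideal.Quotient.mk q (X l)), ?_, ?_⟩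
  · intro G
    rw [hval, map_eq_zero_iff _ (IsFractionRing.injective _ _), Ideal.Quotient.eq_zero_iff_mem]
  · intro a
    obtain ⟨g, h, hh, hgh⟩ := IsFractionRing.div_surjective (A := MvPolynomial ι K ⧸ q) a
    obtain ⟨G, rfl⟩ := Ideal.Quotient.mk_surjective g
    obtain ⟨H, rfl⟩ := Ideal.Quotient.mk_surjective h
    refine ⟨G, H, ?_, ?_⟩
    · rw [hval]
      intro h0
      rw [map_eq_zero_iff _ (IsFractionRing.injective _ _)] at h0
      exact (nonZeroDivisors.ne_zero hh) h0
    · rw [hval, hval, ← hgh]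
      refine div_mul_cancel₀ _ ?_
      intro h0
      rw [map_eq_zero_iff _ (IsFractionRing.injective _ _)] at h0
      exact (nonZeroDivisors.ne_zero hh) h0

end Pool.Agent.Y968.GS
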