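import Pool.Agent.Y234.GS.StmC
import Pool.Agent.Y968.GS.Chart
import Pool.Agent.Y968.GS.Hom
import Pool.Agent.Y968.GS.Drop

/-!
# Project GS: the components of a smooth hyperplane section (S_COMP)
-/

set_option autoImplicit false

namespace Pool.Agent.Y968.GS

open Pool.Agent.Y234.GS MvPolynomial

/-- Elements of degree `e` are values of homogeneous polynomials. -/
theorem vv_hom {K L ι : Type} [Field K] [Field L] [Algebra K L] [Fintype ι] (x : ι → L) (e : ℕ)
    (a : L) (ha : a ∈ (VV K x) ^ e) :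
    ∃ G : MvPolynomial ι K, G.IsHomogeneous e ∧ aeval x G = a := by
  induction e generalizing a with
  | zero =>
    rw [pow_zero] at ha
    obtain ⟨r, hr⟩ := Submodule.mem_one.1 ha
    exact ⟨C r, isHomogeneous_C ι r, by rw [aeval_C, hr]⟩
  | succ e ih =>
    rw [pow_succ] at ha
    refine Submodule.mul_induction_on ha ?_ ?_
    · intro a ha b hb
      obtain ⟨G, hG, rfl⟩ := ih a ha
      obtain ⟨c, rfl⟩ := (Submodule.mem_span_range_iff_exists_fun K).1 hb
      refine ⟨G * ∑ i, C (c i) * X i, ?_, ?_⟩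
      · refine hG.mul (IsHomogeneous.sum _ _ 1 (fun i _ => ?_))
        have h1 := (isHomogeneous_C ι (c i)).mul (isHomogeneous_X K i)
        rwa [zero_add] at h1
      · rw [map_mul, map_sum]
        congr 1
        refine Finset.sum_congr rfl (fun i _ => ?_)
        rw [map_mul, aeval_C, aeval_X, Algebra.smul_def]
    · rintro a b ⟨G, hG, rfl⟩ ⟨G', hG', rfl⟩
      exact ⟨G + G', hG.add hG', map_add _ _ _⟩

/-- Comaximal ideals. -/
theorem crt {R C : Type} [CommRing R] [Fintype C] (k : C → Ideal R) (P : C → Prop)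
    (hk : ∀ c c', P c → P c' → c ≠ c' → k c ⊔ k c' = ⊤) (c : C) (hc : P c) :
    ∃ ε : R, 1 - ε ∈ k c ∧ ∀ c', P c' → c' ≠ c → ε ∈ k c' := by
  classical
  have h1 : ∀ c', ∃ b : R, 1 - b ∈ k c ∧ (P c' → c' ≠ c → b ∈ k c') := by
    intro c'
    by_cases h : P c' ∧ c' ≠ c
    · have h2 := hk c c' hc h.1 (Ne.symm h.2)
      obtain ⟨a, ha, b, hb, hab⟩ := Submodule.mem_sup.1
        (show (1 : R) ∈ k c ⊔ k c' by rw [h2]; exact Submodule.mem_top)
      refine ⟨b, ?_, fun _ _ => hb⟩
      rw [← hab, add_sub_cancel_right]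
      exact ha
    · refine ⟨1, by rw [sub_self]; exact zero_mem _, fun h3 h4 => absurd ⟨h3, h4⟩ h⟩
  choose b hb1 hb2 using h1
  refine ⟨∏ c', b c', ?_, ?_⟩
  · rw [← Ideal.Quotient.eq_zero_iff_mem, map_sub, map_one, map_prod]
    have h2 : ∀ c', Ideal.Quotient.mk (k c) (b c') = 1 := by
      intro c'
      have h3 := Ideal.Quotient.eq_zero_iff_mem.2 (hb1 c')
      rw [map_sub, map_one, sub_eq_zero] at h3
      exact h3.symm
    rw [Finset.prod_congr rfl (fun c' _ => h2 c'), Finset.prod_const_one, sub_self]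
  · intro c' h3 h4
    rw [← Finset.mul_prod_erase Finset.univ b (Finset.mem_univ c')]
    exact Ideal.mul_mem_right _ _ (hb2 c' h3 h4)

theorem aeval_mem {K F ι : Type} [Field K] [Field F] [Algebra K F] (z : ι → F)
    (S : Subalgebra K F) (h : ∀ l, z l ∈ S) (G : MvPolynomial ι K) : aeval z G ∈ S := by
  have h1 : aeval z G ∈ Algebra.adjoin K (Set.range z) := by
    rw [Algebra.adjoin_range_eq_range_aeval]
    exact ⟨G, rfl⟩
  refine (Algebra.adjoin_le ?_) h1
  rintro _ ⟨l, rfl⟩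
  exact h l

/-- The model given by the nonzero coordinates. -/
theorem model_nonzero {K F ι : Type} [Field K] [Field F] [Algebra K F] (z : ι → F)
    (q : Ideal (MvPolynomial ι K)) (hzq : ∀ G : MvPolynomial ι K, aeval z G = 0 ↔ G ∈ q)
    (hq : ∀ G ∈ q, ∀ d : ℕ, homogeneousComponent d G ∈ q)
    (hgen : ∀ a : F, ∃ G H : MvPolynomial ι K, aeval z H ≠ 0 ∧ a * aeval z H = aeval z G) :
    Model K (fun i : {i // z i ≠ 0} => z i) := by
  classical
  refine ⟨fun i => i.2, ?_, ?_⟩
  · intro G hG d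
    have h1 : aeval z (rename (Subtype.val : {i // z i ≠ 0} → ι) G) = 0 := by
      rw [aeval_rename]
      exact hG
    have h2 := hq _ ((hzq _).1 h1) d
    rw [hc_rename, ← hzq, aeval_rename] at h2
    exact h2
  · intro a
    obtain ⟨G, H, hH, hGH⟩ := hgen a
    have h1 : ∀ Q : MvPolynomial ι K, aeval (fun i : {i // z i ≠ 0} => z i)
        (aeval (fun i => if h : z i ≠ 0 then (X ⟨i, h⟩ : MvPolynomial {i // z i ≠ 0} K) else 0) Q) =
        aeval z Q := by
      intro Q
      rw [comp_aeval_apply]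
      congr 2
      funext i
      by_cases h : z i = 0
      · simp [h]
      · simp [h]
    refine ⟨aeval (fun i => if h : z i ≠ 0 then
        (X ⟨i, h⟩ : MvPolynomial {i // z i ≠ 0} K) else 0) G,
      aeval (fun i => if h : z i ≠ 0 then
        (X ⟨i, h⟩ : MvPolynomial {i // z i ≠ 0} K) else 0) H, ?_, ?_⟩
    · rw [h1]
      exact hH
    · rw [h1, h1]
      exact hGH

/-- The image of a chart. -/
theorem range_eq {K R F ι : Type} [Field K] [CommRing R] [Algebra K R] [Field F] [Algebra K F]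
    (r : ι → R) (i : ι) (hunit : IsUnit (r i))
    (hR : ∀ b : R, ∃ (N : ℕ) (G : MvPolynomial ι K), b * r i ^ N = aeval r G)
    (z : ι → F) (hzi : z i ≠ 0) (ρ : R →ₐ[K] F) (hρ : ∀ l, ρ (r l) = z l) :
    ρ.range = Algebra.adjoin K
      (insert (z i)⁻¹ (Set.range (fun l : {l // z l ≠ 0} => z l))) := by
  have hval : ∀ G : MvPolynomial ι K, ρ (aeval r G) = aeval z G := by
    intro G
    rw [comp_aeval_apply]
    congr 2
    funext l
    exact hρ l
  apply le_antisymm
  · rintro _ ⟨b, rfl⟩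
    obtain ⟨N, G, h⟩ := hR b
    have h1 : ρ b = aeval z G * ((z i)⁻¹) ^ N := by
      rw [← hval, ← h, map_mul, map_pow, hρ, inv_pow, mul_assoc,
        mul_inv_cancel₀ (pow_ne_zero N hzi), mul_one]
    change ρ b ∈ _
    rw [h1]
    refine mul_mem (aeval_mem z _ (fun l => ?_) G)
      (pow_mem (Algebra.subset_adjoin (Set.mem_insert _ _)) N)
    by_cases hl : z l = 0
    · rw [hl]
      exact zero_mem _
    · exact Algebra.subset_adjoin (Set.mem_insert_of_mem _ ⟨⟨l, hl⟩, rfl⟩)
  · refine Algebra.adjoin_le ?_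
    rintro _ (rfl | ⟨l, rfl⟩)
    · obtain ⟨s, hs⟩ := hunit.exists_right_inv
      refine ⟨s, ?_⟩
      have h1 : ρ (r i * s) = 1 := by rw [hs, map_one]
      rw [map_mul, hρ] at h1
      exact (inv_eq_of_mul_eq_one_right h1).symm
    · exact ⟨r l, hρ l⟩

/-- The charts of the hyperplane section. -/
theorem chart_ring {K M ι : Type} [Field K] [Field M] [Algebra K M] [Fintype ι] (X' : ι → M)
    (hne : ∀ i, X' i ≠ 0) (T : MvPolynomial ι K)
    (hsm : ∀ (i : ι) (θ : ↥(Algebra.adjoin K (insert (X' i)⁻¹ (Set.range X')))),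
      (θ : M) = aeval X' T →
      Algebra.Smooth K (↥(Algebra.adjoin K (insert (X' i)⁻¹ (Set.range X'))) ⧸
        Ideal.span {θ})) (i : ι) :
    ∃ (R : Type) (_ : CommRing R) (_ : Algebra K R) (r : ι → R), IsUnit (r i) ∧
      (∀ b : R, ∃ (N : ℕ) (G : MvPolynomial ι K), b * r i ^ N = aeval r G) ∧
      (∀ G : MvPolynomial ι K, aeval r G = 0 ↔
        ∃ (N : ℕ) (H : MvPolynomial ι K), aeval X' (X i ^ N * G) = aeval X' (T * H)) ∧
      Algebra.Smooth K R := by
  have hi := hne i
  have hTmem : aeval X' T ∈ Ch K X' i := aeval_mem X' _ (x_mem X' i) T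
  set θ : Ch K X' i := ⟨aeval X' T, hTmem⟩ with hθ
  have hs := hsm i θ rfl
  have hval : ∀ G : MvPolynomial ι K,
      ((aeval (fun l => (⟨X' l, x_mem X' i l⟩ : Ch K X' i)) G : Ch K X' i) : M) = aeval X' G := by
    intro G
    exact (MvPolynomial.aeval_algebraMap_apply M
      (fun l => (⟨X' l, x_mem X' i l⟩ : Ch K X' i)) G).symm
  have hval2 : ∀ G : MvPolynomial ι K,
      aeval (fun l => Ideal.Quotient.mk (Ideal.span {θ}) (⟨X' l, x_mem X' i l⟩ : Ch K X' i)) G =
      Ideal.Quotient.mk (Ideal.span {θ})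
        (aeval (fun l => (⟨X' l, x_mem X' i l⟩ : Ch K X' i)) G) := by
    intro G
    have h1 := comp_aeval_apply (fun l => (⟨X' l, x_mem X' i l⟩ : Ch K X' i))
      (Ideal.Quotient.mkₐ K (Ideal.span {θ})) G
    exact h1.symm
  have hu : IsUnit (⟨X' i, x_mem X' i i⟩ : Ch K X' i) := by
    refine IsUnit.of_mul_eq_one ⟨(X' i)⁻¹, inv_mem X' i⟩ ?_
    apply Subtype.ext
    exact mul_inv_cancel₀ hi
  refine ⟨Ch K X' i ⧸ Ideal.span {θ}, inferInstance, inferInstance,
    fun l => Ideal.Quotient.mk (Ideal.span {θ}) ⟨X' l, x_mem X' i l⟩, ?_, ?_, ?_, hs⟩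
  · exact hu.map (Ideal.Quotient.mk (Ideal.span {θ}))
  · intro b
    obtain ⟨b, rfl⟩ := Ideal.Quotient.mk_surjective b
    obtain ⟨N, G, hG⟩ := chart_form X' i hi b b.2
    refine ⟨N, G, ?_⟩
    rw [hval2, ← map_pow, ← map_mul]
    congr 1
    apply Subtype.ext
    rw [hval]
    exact hG
  · intro G
    rw [hval2, Ideal.Quotient.eq_zero_iff_mem, Ideal.mem_span_singleton]
    constructor
    · rintro ⟨b, hb⟩
      obtain ⟨N, H, hH⟩ := chart_form X' i hi b b.2
      refine ⟨N, H, ?_⟩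
      have h1 := congrArg Subtype.val hb
      rw [hval] at h1
      have h2 : aeval X' G = aeval X' T * (b : M) := h1
      rw [map_mul, map_pow, aeval_X, h2, map_mul, ← hH]
      ring
    · rintro ⟨N, H, hH⟩
      have hmem : aeval X' H * ((X' i)⁻¹) ^ N ∈ Ch K X' i :=
        mul_mem (aeval_mem X' _ (x_mem X' i) H) (pow_mem (inv_mem X' i) N)
      refine ⟨⟨_, hmem⟩, ?_⟩
      apply Subtype.ext
      rw [hval]
      change aeval X' G = aeval X' T * (aeval X' H * ((X' i)⁻¹) ^ N)
      rw [← mul_assoc, ← map_mul, ← hH, map_mul, map_pow, aeval_X, inv_pow]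
      field_simp

theorem comp : S_SMI → S_COMP := by
  intro hsmi K M ι _ _ _ _ X' u D hM htr hθ0 hsm
  classical
  -- the linear form
  set T : MvPolynomial ι K := ∑ i, C (u i) * X i with hT
  have hTh : T.IsHomogeneous 1 := by
    refine IsHomogeneous.sum _ _ 1 (fun i _ => ?_)
    have h1 := (isHomogeneous_C ι (u i)).mul (isHomogeneous_X K i)
    rwa [zero_add] at h1
  have hTval : ∀ (F : Type) [Field F] [Algebra K F] (z : ι → F),
      aeval z T = ∑ i, u i • z i := by
    intro F _ _ z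
    rw [hT, map_sum]
    refine Finset.sum_congr rfl (fun i _ => ?_)
    rw [map_mul, aeval_C, aeval_X, Algebra.smul_def]
  have hTX := hTval M X'
  -- the ideal
  let I : Ideal (MvPolynomial ι K) :=
    { carrier := {G | ∃ H, aeval X' G = aeval X' (T * H)}
      add_mem' := by
        rintro a b ⟨H, hH⟩ ⟨H', hH'⟩
        exact ⟨H + H', by rw [map_add, hH, hH', mul_add, map_add]⟩
      zero_mem' := ⟨0, by rw [mul_zero]⟩
      smul_mem' := by
        rintro c a ⟨H, hH⟩
        refine ⟨c * H, ?_⟩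
        rw [smul_eq_mul, map_mul, hH, ← map_mul]
        congr 1
        ring }
  have hImem : ∀ G, G ∈ I ↔ ∃ H, aeval X' G = aeval X' (T * H) := fun G => Iff.rfl
  have hIhom : ∀ G ∈ I, ∀ d : ℕ, homogeneousComponent d G ∈ I := by
    rintro G ⟨H, hH⟩ d
    have h1 : aeval X' (G - T * H) = 0 := by rw [map_sub, hH, sub_self]
    have h2 := hM.hom _ h1 d
    rw [map_sub, map_sub, sub_eq_zero] at h2
    rcases Nat.eq_zero_or_pos d with hd | hd
    · subst hd
      rw [hc_mul_lt T H 1 hTh 0 Nat.zero_lt_one] at h2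
      exact ⟨0, by rw [h2, mul_zero]⟩
    · have h3 := hc_mul T H 1 hTh (d - 1)
      rw [Nat.add_sub_cancel' hd] at h3
      rw [h3] at h2
      exact ⟨_, h2⟩
  have hTI : T ∈ I := ⟨1, by rw [mul_one]⟩
  have hrelI : ∀ G, aeval X' G = 0 → G ∈ I := fun G hG => ⟨0, by rw [hG, mul_zero, map_zero]⟩
  -- the components
  let C₀ : Set (Ideal (MvPolynomial ι K)) := {q | q ∈ I.minimalPrimes ∧ ∃ i, X i ∉ q}
  have hfin : C₀.Finite :=
    (Ideal.finite_minimalPrimes_of_isNoetherianRing _ I).subset (fun q hq => hq.1)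
  haveI : Fintype C₀ := hfin.fintype
  choose Lc fL aL xc hzq hgen using fun c : C₀ => frac_field c.1 c.2.1.1.1
  have hqhom : ∀ (c : C₀), ∀ G ∈ c.1, ∀ d : ℕ, homogeneousComponent d G ∈ c.1 :=
    fun c G hG d => hom_mem I c.1 hIhom c.2.1 G hG d
  have hIc : ∀ (c : C₀), ∀ G ∈ I, aeval (xc c) G = 0 :=
    fun c G hG => (hzq c G).2 (c.2.1.1.2 hG)
  -- the charts
  choose R cR aR r hunit hR hRI hRsm using fun i =>
    chart_ring X' hM.ne T (fun i θ hθ => hsm i θ (by rw [hθ, hTX])) i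
  have hRI0 : ∀ i, ∀ G ∈ I, aeval (r i) G = 0 := by
    rintro i G ⟨H, hH⟩
    exact (hRI i G).2 ⟨0, H, by rw [pow_zero, one_mul, hH]⟩
  -- the homomorphisms
  have hρ : ∀ i (c : C₀), xc c i ≠ 0 → ∃ ρ : R i →ₐ[K] Lc c, ∀ l, ρ (r i l) = xc c l := by
    intro i c hi
    refine lift_gen (r i) i (hR i) (xc c) (fun G hG => ?_) (isUnit_iff_ne_zero.2 hi)
    obtain ⟨N, H, hH⟩ := (hRI i G).1 hG
    have h1 : aeval (xc c) (X i ^ N * G) = 0 := hIc c _ ⟨H, hH⟩
    rw [map_mul, map_pow, aeval_X] at h1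
    rcases mul_eq_zero.1 h1 with h2 | h2
    · exact absurd h2 (pow_ne_zero N hi)
    · exact h2
  have hρval : ∀ i (c : C₀) (ρ : R i →ₐ[K] Lc c), (∀ l, ρ (r i l) = xc c l) →
      ∀ G : MvPolynomial ι K, ρ (aeval (r i) G) = aeval (xc c) G := by
    intro i c ρ h G
    rw [comp_aeval_apply]
    congr 2
    funext l
    exact h l
  -- values on products of powers
  refine ⟨C₀, inferInstance, Lc, fL, aL, xc, ⟨?_, ?_, hθ0, ?_, ?_⟩, ?_⟩
  · intro c G hG
    exact hIc c G (hrelI G hG)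
  · intro c
    rw [← hTval]
    exact hIc c T hTI
  · -- surjectivity
    intro m S a hS ha
    obtain ⟨i, hiS⟩ := hS
    have hcard : 1 ≤ S.card := Finset.card_pos.2 ⟨i, hiS⟩
    have h1 : ∀ c : C₀, ∃ (N e : ℕ) (G : MvPolynomial ι K), (∀ i ∈ S, xc c i ≠ 0) →
        (e : ℤ) = m + N * S.card ∧ G.IsHomogeneous e ∧
        (∏ i ∈ S, xc c i) ^ N * a c = aeval (xc c) G := by
      intro c
      by_cases hc : ∀ i ∈ S, xc c i ≠ 0
      · obtain ⟨N, e, he, hmem⟩ := ha c hc
        obtain ⟨G, hG, hG2⟩ := vv_hom (xc c) e _ hmem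
        exact ⟨N, e, G, fun _ => ⟨he, hG, hG2.symm⟩⟩
      · exact ⟨0, 0, 0, fun h => absurd h hc⟩
    choose N₀ e₀ G₀ hG₀ using h1
    set N : ℕ := m.natAbs + ∑ c, N₀ c with hN
    have hNle : ∀ c, N₀ c ≤ N := fun c =>
      le_trans (Finset.single_le_sum (fun _ _ => Nat.zero_le _) (Finset.mem_univ c))
        (Nat.le_add_left _ _)
    have hpos : (0 : ℤ) ≤ m + N * S.card := by
      have h2 : (N : ℤ) * 1 ≤ (N : ℤ) * S.card :=
        mul_le_mul_of_nonneg_left (by exact_mod_cast hcard) (by positivity)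
      have h3 : (m.natAbs : ℤ) ≤ N := by
        rw [hN]
        push_cast
        have : (0 : ℤ) ≤ ∑ c, (N₀ c : ℤ) := Finset.sum_nonneg (fun _ _ => by positivity)
        linarith
      omega
    obtain ⟨e, he⟩ := Int.eq_ofNat_of_zero_le hpos
    let XS : MvPolynomial ι K := ∏ j ∈ S, X j
    have hXSh : XS.IsHomogeneous S.card := by
      have h2 := IsHomogeneous.prod S (fun j => (X j : MvPolynomial ι K)) (fun _ => 1)
        (fun j _ => isHomogeneous_X K j)
      rwa [Finset.sum_const, smul_eq_mul, mul_one] at h2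
    have hXSval : ∀ c : C₀, aeval (xc c) XS = ∏ j ∈ S, xc c j := by
      intro c
      rw [map_prod]
      exact Finset.prod_congr rfl (fun j _ => aeval_X _ _)
    let G₁ : C₀ → MvPolynomial ι K := fun c => XS ^ (N - N₀ c) * G₀ c
    have hG₁ : ∀ c : C₀, (∀ i ∈ S, xc c i ≠ 0) → (G₁ c).IsHomogeneous e ∧
        (∏ i ∈ S, xc c i) ^ N * a c = aeval (xc c) (G₁ c) := by
      intro c hc
      obtain ⟨h2, h3, h4⟩ := hG₀ c hc
      have hle := hNle c
      refine ⟨?_, ?_⟩
      · have h5 := (hXSh.pow (N - N₀ c)).mul h3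
        have h6 : S.card * (N - N₀ c) + e₀ c = e := by
          zify [hle]
          rw [h2, ← he]
          ring
        rwa [h6] at h5
      · rw [map_mul, map_pow, hXSval, ← h4, ← mul_assoc, ← pow_add, Nat.sub_add_cancel hle]
    -- the idempotent like elements
    choose ρ hρ' using fun c : {c : C₀ // xc c i ≠ 0} => hρ i c.1 c.2
    have hcomax : ∀ c c' : {c : C₀ // xc c i ≠ 0}, True → True → c ≠ c' →
        RingHom.ker (ρ c) ⊔ RingHom.ker (ρ c') = ⊤ := by
      intro c c' _ _ hne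
      have hk : ∀ c : {c : C₀ // xc c i ≠ 0}, RingHom.ker (ρ c) ∈ minimalPrimes (R i) :=
        fun c => ker_minimal (r i) i I (hunit i) (hR i) (hRI0 i) (xc c.1) (ρ c) (hρ' c) c.1.1
          (hzq c.1) c.1.2.1
      refine (hsmi K (R i)).2.2.1 _ (hk c) _ (hk c') ?_
      intro heq
      apply hne
      apply Subtype.ext
      apply Subtype.ext
      ext G
      rw [← hzq, ← hzq, ← hρval i c.1 (ρ c) (hρ' c), ← hρval i c'.1 (ρ c') (hρ' c')]
      have h2 : aeval (r i) G ∈ RingHom.ker (ρ c) ↔ aeval (r i) G ∈ RingHom.ker (ρ c') := by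
        rw [heq]
      exact h2
    choose ε hε1 hε2 using fun c : {c : C₀ // xc c i ≠ 0} =>
      crt (fun c : {c : C₀ // xc c i ≠ 0} => RingHom.ker (ρ c)) (fun _ => True) hcomax c trivial
    have hε1' : ∀ c, ρ c (ε c) = 1 := by
      intro c
      have h2 : ρ c (1 - ε c) = 0 := hε1 c
      rw [map_sub, map_one, sub_eq_zero] at h2
      exact h2.symm
    have hε2' : ∀ c c', c' ≠ c → ρ c' (ε c) = 0 := fun c c' h => hε2 c c' trivial h
    let b : R i := ∑ c : {c : C₀ // xc c i ≠ 0},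
      if (∀ j ∈ S, xc c.1 j ≠ 0) then ε c * aeval (r i) (G₁ c.1) else 0
    have hb : ∀ c : {c : C₀ // xc c i ≠ 0}, (∀ j ∈ S, xc c.1 j ≠ 0) →
        ρ c b = aeval (xc c.1) (G₁ c.1) := by
      intro c hc
      change ρ c (∑ c : {c : C₀ // xc c i ≠ 0},
        if (∀ j ∈ S, xc c.1 j ≠ 0) then ε c * aeval (r i) (G₁ c.1) else 0) = _
      rw [map_sum, Finset.sum_eq_single c]
      · rw [if_pos hc, map_mul, hε1', one_mul, hρval i c.1 (ρ c) (hρ' c)]
      · intro c' _ hne
        by_cases hc' : ∀ j ∈ S, xc c'.1 j ≠ 0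
        · rw [if_pos hc', map_mul, hε2' c' c (Ne.symm hne), zero_mul]
        · rw [if_neg hc', map_zero]
      · intro h
        exact absurd (Finset.mem_univ c) h
    obtain ⟨N', F, hF⟩ := hR i b
    let XE : MvPolynomial ι K := ∏ j ∈ S.erase i, X j
    have hXE : XE * X i = XS := Finset.prod_erase_mul S _ hiS
    refine ⟨N + N', e + N' * S.card, homogeneousComponent (e + N' * S.card) (XE ^ N' * F), ?_,
      homogeneousComponent_isHomogeneous _ _, ?_⟩
    · push_cast
      rw [← he]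
      ring
    · intro c hc
      have hci : xc c i ≠ 0 := hc i hiS
      have h2 : ρ ⟨c, hci⟩ b * xc c i ^ N' = aeval (xc c) F := by
        rw [← hρval i c (ρ ⟨c, hci⟩) (hρ' ⟨c, hci⟩), ← hF, map_mul, map_pow, hρ' ⟨c, hci⟩]
      rw [hb ⟨c, hci⟩ hc] at h2
      have h3 : aeval (xc c) (XE ^ N' * F) = aeval (xc c) (XS ^ N' * G₁ c) := by
        have h9 : aeval (xc c) (XS ^ N' * G₁ c) =
            (aeval (xc c) XE * xc c i) ^ N' * aeval (xc c) (G₁ c) := by
          rw [← hXE, map_mul, map_pow, map_mul, aeval_X]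
        have h2' : aeval (xc c) (G₁ c) * xc c i ^ N' = aeval (xc c) F := h2
        rw [h9, map_mul, map_pow, ← h2']
        ring
      have h4 : XE ^ N' * F - XS ^ N' * G₁ c ∈ c.1 := by
        rw [← hzq, map_sub, h3, sub_self]
      have h5 := hqhom c _ h4 (e + N' * S.card)
      have h6 : homogeneousComponent (e + N' * S.card) (XS ^ N' * G₁ c) = XS ^ N' * G₁ c := by
        refine hc_self _ _ ?_
        have h7 := (hXSh.pow N').mul (hG₁ c hc).1
        have h8 : S.card * N' + e = e + N' * S.card := by ring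
        rwa [h8] at h7
      rw [map_sub, h6, ← hzq, map_sub, sub_eq_zero] at h5
      rw [h5, map_mul, map_pow, hXSval, ← (hG₁ c hc).2, pow_add]
      ring
  · -- exactness
    intro e S G hS hG hc0
    obtain ⟨i, hiS⟩ := hS
    have hcard : 1 ≤ S.card := Finset.card_pos.2 ⟨i, hiS⟩
    let XS : MvPolynomial ι K := ∏ j ∈ S, X j
    let XE : MvPolynomial ι K := ∏ j ∈ S.erase i, X j
    have hXE : XE * X i = XS := Finset.prod_erase_mul S _ hiS
    have hXSh : XS.IsHomogeneous S.card := by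
      have h2 := IsHomogeneous.prod S (fun j => (X j : MvPolynomial ι K)) (fun _ => 1)
        (fun j _ => isHomogeneous_X K j)
      rwa [Finset.sum_const, smul_eq_mul, mul_one] at h2
    have hzero : aeval (r i) (XS * G) = 0 := by
      have hred := (hsmi K (R i)).1
      have h1 : aeval (r i) (XS * G) ∈ nilradical (R i) := by
        have h2 : nilradical (R i) = sInf (minimalPrimes (R i)) := by
          rw [nilradical, ← Ideal.sInf_minimalPrimes]
          rfl
        rw [h2, Ideal.mem_sInf]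
        intro q' hq'
        obtain ⟨q, hq, hXq, hker⟩ := minimal_is_ker (r i) i I (hunit i) (hR i) (hRI0 i) q' hq'
        let c : C₀ := ⟨q, hq, i, hXq⟩
        have hci : xc c i ≠ 0 := by
          intro h0
          apply hXq
          have h3 := (hzq c (X i)).1 (by rw [aeval_X]; exact h0)
          exact h3
        obtain ⟨ρ, hρ'⟩ := hρ i c hci
        rw [← hker (Lc c) (xc c) ρ hρ' (hzq c)]
        change ρ (aeval (r i) (XS * G)) = 0
        rw [hρval i c ρ hρ', map_mul]
        by_cases hc : ∀ j ∈ S, xc c j ≠ 0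
        · rw [hc0 c hc, mul_zero]
        · push Not at hc
          obtain ⟨j, hjS, hj⟩ := hc
          have h3 : aeval (xc c) XS = 0 := by
            rw [map_prod]
            exact Finset.prod_eq_zero hjS (by rw [aeval_X]; exact hj)
          rw [h3, zero_mul]
      rw [nilradical_eq_zero (R i)] at h1
      exact h1
    obtain ⟨N, H, hH⟩ := (hRI i _).1 hzero
    set d : ℕ := e + (N + 1) * S.card with hd
    have hdpos : 1 ≤ d := by
      have : 1 * 1 ≤ (N + 1) * S.card := Nat.mul_le_mul (Nat.le_add_left 1 N) hcard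
      omega
    have hFh : (XS ^ (N + 1) * G).IsHomogeneous d := by
      have h1 := (hXSh.pow (N + 1)).mul hG
      have h2 : S.card * (N + 1) + e = d := by
        rw [hd]
        ring
      rwa [h2] at h1
    have h1 : aeval X' (XS ^ (N + 1) * G - T * (XE ^ N * H)) = 0 := by
      have h2 : XS ^ (N + 1) * G = XE ^ N * (X i ^ N * (XS * G)) := by
        rw [pow_succ, ← hXE, mul_pow]
        ring
      rw [map_sub, h2, map_mul (aeval X') (XE ^ N), hH, ← map_mul]
      have h3 : XE ^ N * (T * H) = T * (XE ^ N * H) := by ring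
      rw [h3, sub_self]
    have h2 := hM.hom _ h1 d
    have h3 := hc_mul T (XE ^ N * H) 1 hTh (d - 1)
    rw [Nat.add_sub_cancel' hdpos] at h3
    rw [map_sub, hc_self _ d hFh, h3, map_sub, sub_eq_zero] at h2
    refine ⟨N + 1, homogeneousComponent (d - 1) (XE ^ N * H),
      homogeneousComponent_isHomogeneous _ _, Nat.le_add_left 1 N, ?_⟩
    rw [← hTX, ← map_mul, ← h2, map_mul, map_pow, map_prod]
    congr 2
    exact Finset.prod_congr rfl (fun j _ => (aeval_X _ _).symm)
  · intro c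
    refine ⟨model_nonzero (xc c) c.1 (hzq c) (hqhom c) (hgen c), ?_, ?_⟩
    · rintro ⟨i, hi⟩
      obtain ⟨ρ, hρ'⟩ := hρ i c hi
      have hk := ker_minimal (r i) i I (hunit i) (hR i) (hRI0 i) (xc c) ρ hρ' c.1
        (hzq c) c.2.1
      haveI hsm' := (hsmi K (R i)).2.2.2 _ hk
      haveI h1 : Algebra.Smooth K ρ.range :=
        Algebra.Smooth.of_equiv (Ideal.quotientKerEquivRange ρ)
      rw [range_eq (r i) i (hunit i) (hR i) (xc c) hi ρ hρ'] at h1
      exact h1
    · refine trdeg_drop X' (xc c) D htr (fun G hG => hIc c G (hrelI G hG)) T ?_ (hIc c T hTI)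
        (hgen c)
      rw [hTX]
      exact hθ0

end Pool.Agent.Y968.GS
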