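import Pool.Agent.Y234.GS.StmB
import Pool.Agent.Y968.GS.Top

/-!
# Project GS: extension of functionals to a larger field (S_EXT)
-/

set_option autoImplicit false

namespace Pool.Agent.Y968.GS

open Pool.Agent.Y234.GS

section zero

variable {ι L O : Type} [LinearOrder ι] [CommRing O] [Field L] [Algebra O L]

omit [LinearOrder ι] in
theorem sec_zero (W : Submodule O L) (f : ι → L) (m : ℤ) (S : Finset ι) (hS : 1 ≤ S.card) :
    (0 : L) ∈ Sec W f m S := by
  refine ⟨m.natAbs, (m + m.natAbs * S.card).toNat, ?_, by simp⟩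
  have h1 : (0 : ℤ) ≤ m + m.natAbs * S.card := by
    have h2 : (m.natAbs : ℤ) * 1 ≤ (m.natAbs : ℤ) * S.card :=
      mul_le_mul_of_nonneg_left (by exact_mod_cast hS) (by positivity)
    omega
  omega

theorem cocyc_zero (W : Submodule O L) (f : ι → L) (m : ℤ) (j : ℕ) (hj : 1 ≤ j) :
    Cocyc W f m j 0 := by
  refine ⟨fun S hS => ?_, fun S _ => ?_⟩
  · exact sec_zero W f m S (by omega)
  · unfold dd
    simp

theorem cocyc_add (W : Submodule O L) (f : ι → L) (hf : ∀ i, f i ∈ W) (m : ℤ) (j : ℕ)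
    (c c' : Finset ι → L) (hc : Cocyc W f m j c) (hc' : Cocyc W f m j c') :
    Cocyc W f m j (c + c') := by
  refine ⟨fun S hS => ?_, fun S hS => ?_⟩
  · exact sec_add W f hf m S _ _ (hc.1 S hS) (hc'.1 S hS)
  · rw [dd_add, hc.2 S hS, hc'.2 S hS, add_zero]

theorem cocyc_smul (W : Submodule O L) (f : ι → L) (m : ℤ) (j : ℕ) (z : O)
    (c : Finset ι → L) (hc : Cocyc W f m j c) : Cocyc W f m j (z • c) := by
  refine ⟨fun S hS => ?_, fun S hS => ?_⟩
  · exact sec_smul W f m S z _ (hc.1 S hS)
  · have h1 := dd_smul z c S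
    rw [hc.2 S hS, smul_zero] at h1
    exact h1

theorem cocyc_sum (W : Submodule O L) (f : ι → L) (hf : ∀ i, f i ∈ W) (m : ℤ) (j : ℕ)
    (hj : 1 ≤ j) {τ : Type} (s : Finset τ) (c : τ → Finset ι → L)
    (hc : ∀ i ∈ s, Cocyc W f m j (c i)) : Cocyc W f m j (∑ i ∈ s, c i) := by
  classical
  induction s using Finset.induction_on with
  | empty => simpa using cocyc_zero W f m j hj
  | insert a s ha ih =>
    rw [Finset.sum_insert ha]
    exact cocyc_add W f hf m j _ _ (hc a (Finset.mem_insert_self a s))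
      (ih (fun i hi => hc i (Finset.mem_insert_of_mem hi)))

theorem rep_congr {D : ℕ} [Fintype ι] (W : Submodule O L) (x : ι → L) (ψ : Fin D → L) (m : ℤ)
    (c c' : Finset ι → L) (v : L) (h : Rep W x ψ m c v)
    (hc : ∀ S : Finset ι, S.card = D → c S = c' S) : Rep W x ψ m c' v := by
  obtain ⟨k, h1, h2, h3⟩ := h
  exact ⟨k, h1, fun S hS => by rw [h2 S hS, hc S hS], h3⟩

theorem rep_zero {D : ℕ} [Fintype ι] (W : Submodule O L) (x : ι → L) (ψ : Fin D → L) (m : ℤ)
    (hD : 1 ≤ D) : Rep W x ψ m 0 0 :=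
  ⟨0, cocyc_zero W _ m D hD, fun _ _ => rfl, rfl⟩

theorem rep_sum {D : ℕ} [Fintype ι] (hD : 2 ≤ D) (W : Submodule O L) (x : ι → L)
    (ψ : Fin D → L) (m : ℤ) (hx : ∀ i, x i ∈ W) (hψ : ∀ k, ψ k ∈ W)
    {τ : Type} (s : Finset τ) (r : τ → O) (c : τ → Finset ι → L) (v : τ → L)
    (hc : ∀ i ∈ s, Rep W x ψ m (c i) (v i)) :
    Rep W x ψ m (∑ i ∈ s, r i • c i) (∑ i ∈ s, r i • v i) := by
  classical
  have hr := repc O L ι D W x ψ m hD hx hψ
  induction s using Finset.induction_on with
  | empty => simpa using rep_zero W x ψ m (by omega)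
  | insert a s ha ih =>
    rw [Finset.sum_insert ha, Finset.sum_insert ha]
    refine hr.1 _ _ _ _ ?_ (ih (fun i hi => hc i (Finset.mem_insert_of_mem hi)))
    exact hr.2.2.2.1 (r a) (c a) (v a) (hc a (Finset.mem_insert_self a s))

end zero

section base

variable {k k1 L L1 ι : Type} [Field k] [Field k1] [Field L] [Field L1] [Algebra k k1]
    [Algebra k L] [Algebra k L1] [Algebra k1 L1] [Algebra L L1] [IsScalarTower k k1 L1]
    [IsScalarTower k L L1]

theorem map_pow_mem (x : ι → L) (e : ℕ) (a : L) (ha : a ∈ (VV k x) ^ e) :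
    algebraMap L L1 a ∈ (VV k1 (fun i => algebraMap L L1 (x i))) ^ e := by
  induction e generalizing a with
  | zero =>
    rw [pow_zero] at ha ⊢
    obtain ⟨r, hr⟩ := Submodule.mem_one.1 ha
    refine Submodule.mem_one.2 ⟨algebraMap k k1 r, ?_⟩
    rw [← hr, ← IsScalarTower.algebraMap_apply, ← IsScalarTower.algebraMap_apply]
  | succ e ih =>
    rw [pow_succ] at ha ⊢
    refine Submodule.mul_induction_on ha ?_ ?_
    · intro a ha b hb
      rw [map_mul]
      refine Submodule.mul_mem_mul (ih a ha) ?_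
      refine Submodule.span_induction ?_ ?_ ?_ ?_ hb
      · rintro _ ⟨i, rfl⟩
        exact Submodule.subset_span ⟨i, rfl⟩
      · rw [map_zero]
        exact zero_mem _
      · intro u v _ _ hu hv
        rw [map_add]
        exact add_mem hu hv
      · intro r u _ hu
        rw [Algebra.smul_def, map_mul, ← IsScalarTower.algebraMap_apply k L L1,
          IsScalarTower.algebraMap_apply k k1 L1, ← Algebra.smul_def]
        exact Submodule.smul_mem _ _ hu
    · intro a b ha hb
      rw [map_add]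
      exact add_mem ha hb

variable [LinearOrder ι]

theorem dd_alg (c : Finset ι → L) (S : Finset ι) :
    dd (fun S => algebraMap L L1 (c S)) S = algebraMap L L1 (dd c S) := by
  unfold dd
  rw [map_sum]
  refine Finset.sum_congr rfl (fun i _ => ?_)
  rw [map_zsmul]

theorem cocyc_base (x : ι → L) (m : ℤ) (j : ℕ) (c : Finset ι → L)
    (hc : Cocyc (VV k x) x m j c) :
    Cocyc (VV k1 (fun i => algebraMap L L1 (x i))) (fun i => algebraMap L L1 (x i)) m j
      (fun S => algebraMap L L1 (c S)) := by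
  refine ⟨fun S hS => ?_, fun S hS => ?_⟩
  · obtain ⟨N, e, h1, h2⟩ := hc.1 S hS
    refine ⟨N, e, h1, ?_⟩
    have h3 := map_pow_mem (k := k) (k1 := k1) (L1 := L1) x e _ h2
    rw [map_mul, map_pow, map_prod] at h3
    exact h3
  · rw [dd_alg, hc.2 S hS, map_zero]

theorem cover_self {K M : Type} [Field K] [Field M] [Algebra K M] [Fintype ι] (x : ι → M) :
    Cover (VV K x) x := by
  refine ⟨0, fun a ha => ?_⟩
  rw [zero_add, pow_one] at ha
  obtain ⟨r, hr⟩ := (Submodule.mem_span_range_iff_exists_fun K).1 ha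
  refine ⟨fun i => algebraMap K M (r i), fun i => ?_, ?_⟩
  · rw [pow_zero]
    exact Submodule.mem_one.2 ⟨r i, rfl⟩
  · rw [← hr]
    refine Finset.sum_congr rfl (fun i _ => ?_)
    rw [Algebra.smul_def, mul_comm]

end base

/-- Finitely many elements of an extension field are combinations of independent ones. -/
theorem exists_indep {k k1 τ : Type} [Field k] [Field k1] [Algebra k k1] (s : Finset τ)
    (r : τ → k1) : ∃ (n : ℕ) (ρ : Fin n → k1) (a : τ → Fin n → k), LinearIndependent k ρ ∧
      ∀ i ∈ s, r i = ∑ j, a i j • ρ j := by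
  classical
  set P : Submodule k k1 := Submodule.span k (s.image r : Set k1) with hP
  haveI : FiniteDimensional k P := FiniteDimensional.span_finset k (s.image r)
  let b := Module.finBasis k P
  refine ⟨Module.finrank k P, fun j => (b j : k1),
    fun i j => if h : r i ∈ P then b.repr ⟨r i, h⟩ j else 0, ?_, ?_⟩
  · exact b.linearIndependent.map' P.subtype (Submodule.ker_subtype P)
  · intro i hi
    have h : r i ∈ P := Submodule.subset_span (by
      rw [Finset.mem_coe]
      exact Finset.mem_image_of_mem r hi)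
    have h1 := congrArg (Submodule.subtype P) (b.sum_repr ⟨r i, h⟩)
    rw [map_sum] at h1
    simp only [map_smul, Submodule.subtype_apply] at h1
    rw [← h1]
    refine Finset.sum_congr rfl (fun j _ => ?_)
    simp only [dif_pos h]

theorem ext : S_TOP → S_REPC → S_BCH → S_EXT := by
  intro htop _ hbch k k1 L L1 ι _ _ _ _ _ _ _ _ _ _ _ _ _ x D ψ μ hD hdisj hx0 hψ hψ0 hcov
  set X : ι → L1 := fun i => algebraMap L L1 (x i) with hX
  have hXV : ∀ i, X i ∈ VV k1 X := fun i => Submodule.subset_span ⟨i, rfl⟩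
  have hxV : ∀ i, x i ∈ VV k x := fun i => Submodule.subset_span ⟨i, rfl⟩
  have hX0 : ∀ i, X i ≠ 0 := fun i => by
    rw [hX]
    exact (map_ne_zero (algebraMap L L1)).2 (hx0 i)
  obtain ⟨t1, t2, t3⟩ := htop k1 L1 ι D (VV k1 X) X ψ μ hD hXV hX0 hψ hψ0 (cover_self X) hcov
  obtain ⟨b1, b2⟩ := hbch k k1 L L1 ι x μ D hdisj hx0 (by omega)
  have b2 := b2 hD
  have hr := repc k1 L1 ι D (VV k1 X) X ψ μ hD hXV hψ
  refine ⟨?_, ?_⟩
  · intro v hv
    obtain ⟨c1, hc1, hrep1⟩ := t1 v hv
    obtain ⟨n, r, c, -, hc, hc1c⟩ := b1 c1 hc1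
    have hex : ∀ i, ∃ v', Rep (VV k1 X) X ψ μ (fun S => algebraMap L L1 (c i S)) v' := by
      intro i
      obtain ⟨v', -, hv'⟩ := t2 _ (cocyc_base (k1 := k1) (L1 := L1) x μ D (c i) (hc i))
      exact ⟨v', hv'⟩
    choose v' hv' using hex
    have h1 := rep_sum hD (VV k1 X) X ψ μ hXV hψ Finset.univ r
      (fun i => (fun S => algebraMap L L1 (c i S))) v' (fun i _ => hv' i)
    have h2 := hr.2.2.2.1 (-1 : k1) _ _ h1
    have h3 := hr.1 _ _ _ _ hrep1 h2
    have h4 : Rep (VV k1 X) X ψ μ (fun S => algebraMap L L1 ((0 : Finset ι → L) S))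
        (v + (-1 : k1) • ∑ i, r i • v' i) := by
      refine rep_congr (VV k1 X) X ψ μ _ _ _ h3 ?_
      intro S hS
      rw [Pi.add_apply, hc1c S hS, Finset.sum_apply]
      simp
    refine ⟨n + 1, Fin.cons 1 r, Fin.cons 0 c,
      Fin.cons (v + (-1 : k1) • ∑ i, r i • v' i) v', ?_, ?_, ?_⟩
    · intro i
      refine Fin.cases ?_ ?_ i
      · exact cocyc_zero (VV k x) x μ D (by omega)
      · intro i
        exact hc i
    · intro i
      refine Fin.cases ?_ ?_ i
      · exact h4
      · intro i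
        exact hv' i
    · rw [Fin.sum_univ_succ]
      simp
  · intro χ hχ
    -- the submodule of the graph
    let T : Type := {τ : (Finset ι → L) × L1 //
      Cocyc (VV k x) x μ D τ.1 ∧ Rep (VV k1 X) X ψ μ (fun S => algebraMap L L1 (τ.1 S)) τ.2}
    let B : Submodule k1 L1 :=
      { carrier := {v | Bd (VV k1 X) ψ μ v}
        add_mem' := fun {a b} ha hb => hr.2.2.2.2.1 a b ha hb
        zero_mem' := ⟨0, fun k => sec_zero (VV k1 X) ψ μ _ (by
          rw [Finset.card_erase_of_mem (Finset.mem_univ k), Finset.card_univ, Fintype.card_fin]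
          omega), by simp⟩
        smul_mem' := fun a b hb => hr.2.2.2.2.2.2.2 a b hb }
    let U1 : Submodule k1 (L1 × k1) :=
      Submodule.span k1 (Set.range (fun τ : T => (τ.1.2, algebraMap k k1 (χ τ.1.1))))
    let U : Submodule k1 (L1 × k1) := U1 ⊔ B.map (LinearMap.inl k1 L1 k1)
    have hU : ∀ p : L1 × k1, p ∈ U → p.1 = 0 → p.2 = 0 := by
      intro p hp hp0
      obtain ⟨p1, hp1, p2, hp2, rfl⟩ := Submodule.mem_sup.1 hp
      obtain ⟨b, hb, rfl⟩ := hp2
      obtain ⟨f, rfl⟩ := Finsupp.mem_span_range_iff_exists_finsupp.1 hp1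
      obtain ⟨n, ρ, a, hρ, ha⟩ := exists_indep (k := k) f.support f
      have e1 : (f.sum fun i a => a • ((i.1.2, algebraMap k k1 (χ i.1.1)) : L1 × k1)).1 =
          ∑ τ ∈ f.support, f τ • τ.1.2 := by
        rw [Finsupp.sum, Prod.fst_sum]
        rfl
      have e2 : (f.sum fun i a => a • ((i.1.2, algebraMap k k1 (χ i.1.1)) : L1 × k1)).2 =
          ∑ τ ∈ f.support, f τ * algebraMap k k1 (χ τ.1.1) := by
        rw [Finsupp.sum, Prod.snd_sum]
        rfl
      have e3 : (∑ τ ∈ f.support, f τ • τ.1.2) + b = 0 := by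
        rw [← e1]
        exact hp0
      -- the combinations
      set c' : Fin n → Finset ι → L := fun j => ∑ τ ∈ f.support, a τ j • τ.1.1 with hc'
      have hc'c : ∀ j, Cocyc (VV k x) x μ D (c' j) := by
        intro j
        rw [hc']
        refine cocyc_sum (VV k x) x hxV μ D (by omega) f.support _ ?_
        intro τ _
        exact cocyc_smul (VV k x) x μ D (a τ j) _ τ.2.1
      have halg : ∀ j, (∑ τ ∈ f.support, (algebraMap k k1 (a τ j)) •
          (fun S => algebraMap L L1 (τ.1.1 S))) = fun S => algebraMap L L1 (c' j S) := by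
        intro j
        ext S
        rw [hc']
        simp only [Finset.sum_apply, Pi.smul_apply, map_sum]
        refine Finset.sum_congr rfl (fun τ _ => ?_)
        rw [Algebra.smul_def, Algebra.smul_def, map_mul, ← IsScalarTower.algebraMap_apply k L L1,
          ← IsScalarTower.algebraMap_apply k k1 L1]
      have hrepj : ∀ j, Rep (VV k1 X) X ψ μ (fun S => algebraMap L L1 (c' j S))
          (∑ τ ∈ f.support, (algebraMap k k1 (a τ j)) • τ.1.2) := by
        intro j
        rw [← halg j]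
        exact rep_sum hD (VV k1 X) X ψ μ hXV hψ f.support _ _ _ (fun τ _ => τ.2.2)
      have hrep := rep_sum hD (VV k1 X) X ψ μ hXV hψ Finset.univ ρ
        (fun j => (fun S => algebraMap L L1 (c' j S))) _ (fun j _ => hrepj j)
      have hval : (∑ j, ρ j • ∑ τ ∈ f.support, (algebraMap k k1 (a τ j)) • τ.1.2) =
          (-1 : k1) • b := by
        have h5 : (∑ j, ρ j • ∑ τ ∈ f.support, (algebraMap k k1 (a τ j)) • τ.1.2) =
            ∑ τ ∈ f.support, f τ • τ.1.2 := by
          simp only [Finset.smul_sum]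
          rw [Finset.sum_comm]
          refine Finset.sum_congr rfl (fun τ hτ => ?_)
          rw [ha τ hτ, Finset.sum_smul]
          refine Finset.sum_congr rfl (fun j _ => ?_)
          rw [smul_smul, Algebra.smul_def (a τ j) (ρ j), mul_comm]
        rw [h5, neg_smul, one_smul]
        exact eq_neg_of_add_eq_zero_left e3
      have hBd : Bd (VV k1 X) ψ μ
          (∑ j, ρ j • ∑ τ ∈ f.support, (algebraMap k k1 (a τ j)) • τ.1.2) := by
        rw [hval]
        exact B.smul_mem (-1 : k1) hb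
      have hcocyc : Cocyc (VV k1 X) X μ D (∑ j, ρ j • (fun S => algebraMap L L1 (c' j S))) := by
        refine cocyc_sum (VV k1 X) X hXV μ D (by omega) Finset.univ _ ?_
        intro j _
        exact cocyc_smul (VV k1 X) X μ D (ρ j) _
          (cocyc_base (k1 := k1) (L1 := L1) x μ D (c' j) (hc'c j))
      have hcob := (t3 _ _ hcocyc hrep).2 hBd
      have hcob2 := b2 n ρ c' hρ hc'c (cobd_congr (VV k1 X) X μ D _ _ hcob (fun S _ => by
        simp only [Finset.sum_apply, Pi.smul_apply]))
      have h0 : ∀ j, χ (c' j) = 0 := fun j => hχ (c' j) (hc'c j) (hcob2 j)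
      have h6 : ∑ τ ∈ f.support, f τ * algebraMap k k1 (χ τ.1.1) =
          ∑ j, ρ j * algebraMap k k1 (χ (c' j)) := by
        rw [hc']
        simp only [map_sum, map_smul, smul_eq_mul, map_mul, Finset.mul_sum]
        rw [Finset.sum_comm]
        refine Finset.sum_congr rfl (fun τ hτ => ?_)
        rw [ha τ hτ, Finset.sum_mul]
        refine Finset.sum_congr rfl (fun j _ => ?_)
        rw [Algebra.smul_def]
        ring
      have h7 : (f.sum fun i a => a • ((i.1.2, algebraMap k k1 (χ i.1.1)) : L1 × k1)).2 = 0 := by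
        rw [e2, h6]
        refine Finset.sum_eq_zero (fun j _ => ?_)
        rw [h0 j, map_zero, mul_zero]
      rw [Prod.snd_add, h7]
      simp
    obtain ⟨χ1, hχ1⟩ := LinearMap.exists_extend U.toLinearPMap.toFun
    have hval : ∀ v t, (v, t) ∈ U → χ1 v = t := by
      intro v t hvt
      have hgr : (v, t) ∈ U.toLinearPMap.graph := by
        rw [Submodule.toLinearPMap_graph_eq U hU]
        exact hvt
      obtain ⟨y, hy1, hy2⟩ := (LinearPMap.mem_graph_iff _).1 hgr
      have h8 := LinearMap.congr_fun hχ1 y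
      rw [LinearMap.comp_apply, Submodule.subtype_apply] at h8
      simp only at hy1 hy2
      rw [← hy1, h8]
      exact hy2
    refine ⟨χ1, ?_, ?_⟩
    · intro v hv
      refine hval v 0 (Submodule.mem_sup_right ⟨v, hv, ?_⟩)
      simp
    · intro c v hc hrep
      refine hval v _ (Submodule.mem_sup_left (Submodule.subset_span ⟨⟨(c, v), hc, hrep⟩, rfl⟩))

end Pool.Agent.Y968.GS
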