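import Mathlib

/-!
# Project GS: the rank of the module of differentials of a smooth domain
-/

set_option autoImplicit false

namespace Pool.Agent.Y968.GS

open TensorProduct MvPolynomial

/-- The dimension of the module of differentials of a finitely generated field extension of a
perfect field is the transcendence degree. -/
theorem finrank_omega_field (K L : Type) [Field K] [PerfectField K] [Field L] [Algebra K L]
    [Algebra.EssFiniteType K L] (D : ℕ) (hD : Algebra.trdeg K L = (D : Cardinal)) :
    Module.finrank L Ω[L⁄K] = D := by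
  obtain ⟨s, hs, hsep⟩ := exists_isTranscendenceBasis_and_isSeparable_of_perfectField K L
  have hcard : Fintype.card s = D := by
    have h1 := hs.cardinalMk_eq_trdeg
    rw [hD] at h1
    have h2 : Cardinal.mk ↥s = (Fintype.card s : Cardinal) := Cardinal.mk_fintype s
    rw [h2] at h1
    exact_mod_cast h1
  have hv := hs.1
  set v : s → L := fun i => (i : L) with hvdef
  have hr : Set.range v = (s : Set L) := by
    rw [hvdef]
    simp
  set F := IntermediateField.adjoin K (Set.range v) with hF
  have hsepF : Algebra.IsSeparable F L := by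
    rw [hF, hr]
    exact hsep
  let e : FractionRing (MvPolynomial s K) ≃ₐ[K] F := hv.aevalEquivField
  letI a1 : Algebra (MvPolynomial s K) L := (aeval v : MvPolynomial s K →ₐ[K] L).toRingHom.toAlgebra
  letI a2 : Algebra (FractionRing (MvPolynomial s K)) L :=
    ((algebraMap F L).comp (e : FractionRing (MvPolynomial s K) →+* F)).toAlgebra
  haveI t1 : IsScalarTower (MvPolynomial s K) (FractionRing (MvPolynomial s K)) L := by
    refine IsScalarTower.of_algebraMap_eq (fun p => ?_)
    change aeval v p = ((e (algebraMap _ _ p) : F) : L)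
    exact (hv.aevalEquivField_algebraMap_apply_coe p).symm
  haveI t2 : IsScalarTower K (MvPolynomial s K) L := by
    refine IsScalarTower.of_algebraMap_eq (fun r => ?_)
    change algebraMap K L r = aeval v (algebraMap K (MvPolynomial s K) r)
    simp
  haveI s1 : Algebra.IsSeparable (FractionRing (MvPolynomial s K)) L := by
    refine Algebra.IsSeparable.of_equiv_equiv (A₁ := F) (B₁ := L) e.symm.toRingEquiv
      (RingEquiv.refl L) ?_
    ext z
    change ((e (e.symm z) : F) : L) = _
    rw [AlgEquiv.apply_symm_apply]
    rfl
  haveI f1 : Algebra.FormallyEtale (MvPolynomial s K) (FractionRing (MvPolynomial s K)) :=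
    .of_isLocalization (nonZeroDivisors _)
  haveI f2 : Algebra.FormallyEtale (FractionRing (MvPolynomial s K)) L :=
    .of_isSeparable _ _
  haveI f3 : Algebra.FormallyEtale (MvPolynomial s K) L :=
    .comp _ (FractionRing (MvPolynomial s K)) _
  have e1 := KaehlerDifferential.tensorKaehlerEquivOfFormallyEtale K (MvPolynomial s K) L
  haveI fr : Module.Free (MvPolynomial s K) Ω[MvPolynomial s K⁄K] :=
    Module.Free.of_basis (KaehlerDifferential.mvPolynomialBasis K s)
  rw [← e1.finrank_eq, Module.finrank_baseChange,
    Module.finrank_eq_card_basis (KaehlerDifferential.mvPolynomialBasis K s), hcard]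

/-- The rank of the module of differentials of a smooth domain at a point. -/
theorem finrank_omega_point (K B L κ : Type) [Field K] [PerfectField K] [CommRing B] [IsDomain B]
    [Algebra K B] [Algebra.Smooth K B] [Field L] [Algebra K L] [Algebra B L] [IsScalarTower K B L]
    [IsFractionRing B L] [Field κ] [Algebra B κ] (D : ℕ)
    (hD : Algebra.trdeg K L = (D : Cardinal)) :
    Module.finrank κ (κ ⊗[B] Ω[B⁄K]) = D := by
  haveI : Algebra.FormallyEtale B L := .of_isLocalization (nonZeroDivisors B)
  haveI : Algebra.EssFiniteType B L := .of_isLocalization _ (nonZeroDivisors B)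
  haveI : Algebra.EssFiniteType K L := .comp K B L
  have e1 := KaehlerDifferential.tensorKaehlerEquivOfFormallyEtale K B L
  have h1 : Module.finrank L (L ⊗[B] Ω[B⁄K]) = D := by
    rw [e1.finrank_eq]
    exact finrank_omega_field K L D hD
  have h2 := Module.rankAtStalk_baseChange (R := B) (M := Ω[B⁄K]) (S := κ) ⊥
  have h3 := Module.rankAtStalk_baseChange (R := B) (M := Ω[B⁄K]) (S := L) ⊥
  rw [Module.rankAtStalk_eq_finrank_of_free] at h2 h3
  have h4 : (PrimeSpectrum.comap (algebraMap B L)) ⊥ ≤ (PrimeSpectrum.comap (algebraMap B κ)) ⊥ := by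
    intro z hz
    have h5 : algebraMap B L z = 0 := hz
    have h6 : z = 0 := (IsFractionRing.injective B L) (by rw [h5, map_zero])
    rw [h6]
    exact zero_mem _
  have h5 := Module.rankAtStalk_eq_of_le_of_finite_of_flat Ω[B⁄K] h4
  rw [Pi.natCast_apply, Nat.cast_id] at h2 h3
  rw [h2, ← h5, ← h3, h1]

end Pool.Agent.Y968.GS
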