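import Pool.Agent.Y234.GS.StmB
import Pool.Agent.Y968.GS.Om
import Pool.Agent.Y968.GS.Chart

/-!
# Project GS: tangent spaces of smooth charts (S_TAN)
-/

set_option autoImplicit false

namespace Pool.Agent.Y968.GS

open Pool.Agent.Y234.GS MvPolynomial TensorProduct

/-- The values of the relations in the dual numbers. -/
theorem aeval_tsze {K ι : Type} [Field K] [Fintype ι] (y v : ι → K) (G : MvPolynomial ι K) :
    aeval (fun l => (TrivSqZeroExt.inl (y l) + TrivSqZeroExt.inr (v l) : TrivSqZeroExt K K)) G =
      TrivSqZeroExt.inl (aeval y G) + TrivSqZeroExt.inr (∑ l, aeval y (pderiv l G) * v l) := by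
  classical
  induction G using MvPolynomial.induction_on with
  | C r =>
    simp only [algHom_C, pderiv_C, map_zero, zero_mul, Finset.sum_const_zero,
      TrivSqZeroExt.inr_zero, add_zero]
    rfl
  | add p q hp hq =>
    rw [map_add, map_add, hp, hq, TrivSqZeroExt.inl_add]
    have h1 : (∑ l, aeval y (pderiv l (p + q)) * v l) =
        (∑ l, aeval y (pderiv l p) * v l) + ∑ l, aeval y (pderiv l q) * v l := by
      rw [← Finset.sum_add_distrib]
      refine Finset.sum_congr rfl (fun l _ => ?_)
      rw [map_add, map_add, add_mul]
    rw [h1, TrivSqZeroExt.inr_add]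
    abel
  | mul_X p j hp =>
    rw [map_mul, map_mul, aeval_X, aeval_X, hp]
    have h1 : (∑ l, aeval y (pderiv l (p * X j)) * v l) =
        aeval y p * v j + y j * ∑ l, aeval y (pderiv l p) * v l := by
      have h2 : ∀ l, aeval y (pderiv l (p * X j)) * v l =
          (if l = j then aeval y p * v j else 0) + y j * (aeval y (pderiv l p) * v l) := by
        intro l
        rw [Derivation.leibniz, smul_eq_mul, smul_eq_mul, pderiv_X, map_add, map_mul, map_mul,
          aeval_X]
        by_cases h : l = j
        · subst h
          rw [if_pos rfl, Pi.single_eq_same, map_one]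
          ring
        · rw [if_neg h, Pi.single_eq_of_ne (Ne.symm h), map_zero]
          ring
      rw [Finset.sum_congr rfl (fun l _ => h2 l), Finset.sum_add_distrib, Finset.sum_ite_eq',
        if_pos (Finset.mem_univ j), Finset.mul_sum]
    rw [h1]
    ext
    · simp
    · simp
      ring

theorem tan : S_TAN := by
  intro K L ι _ _ _ _ _ x D y hM hsm htr hpt
  classical
  obtain ⟨i, hi⟩ : ∃ i, y i ≠ 0 := by
    by_contra h
    push Not at h
    exact hpt.1 (funext h)
  have hxi := hM.ne i
  have hzy : ∀ G : MvPolynomial ι K, aeval x G = 0 → aeval y G = 0 := by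
    intro G hG
    have h1 : ∀ d, eval y (homogeneousComponent d G) = 0 := fun d =>
      hpt.2 d _ (homogeneousComponent_isHomogeneous d G) (hM.hom G hG d)
    have h2 : aeval y G = eval y G := rfl
    rw [h2, ← sum_homogeneousComponent G, map_sum]
    exact Finset.sum_eq_zero (fun d _ => h1 d)
  obtain ⟨ev, hev⟩ := lift_chart x i hxi y hzy (isUnit_iff_ne_zero.2 hi)
  haveI hs : Algebra.Smooth K (Ch K x i) := hsm i
  haveI hfr : IsFractionRing (Ch K x i) L := by
    refine IsFractionRing.of_field _ _ (fun a => ?_)
    obtain ⟨G, H, hH, hGH⟩ := hM.gen a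
    have hmem : ∀ P : MvPolynomial ι K, aeval x P ∈ Ch K x i := by
      intro P
      have h1 := MvPolynomial.aeval_algebraMap_apply L
        (fun l => (⟨x l, x_mem x i l⟩ : Ch K x i)) P
      have h2 : aeval x P = algebraMap (Ch K x i) L
        (aeval (fun l => (⟨x l, x_mem x i l⟩ : Ch K x i)) P) := h1
      rw [h2]
      exact Subtype.property _
    refine ⟨⟨aeval x G, hmem G⟩, ⟨aeval x H, hmem H⟩, ?_⟩
    exact (eq_div_iff hH).2 hGH
  letI alg : Algebra (Ch K x i) K := ev.toRingHom.toAlgebra
  haveI tow : IsScalarTower K (Ch K x i) K := IsScalarTower.of_algebraMap_eq (fun r => by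
    change r = ev (algebraMap K _ r)
    rw [AlgHom.commutes]
    rfl)
  have hfin := finrank_omega_point K (Ch K x i) L K D htr
  let x' : ι → Ch K x i := fun l => ⟨x l, x_mem x i l⟩
  let Ψ : (Ω[Ch K x i⁄K] →ₗ[Ch K x i] K) →ₗ[K] (ι → K) :=
    { toFun := fun g l => g (KaehlerDifferential.D K (Ch K x i) (x' l))
      map_add' := fun g h => rfl
      map_smul' := fun c g => rfl }
  have hinj : Function.Injective Ψ := by
    rw [injective_iff_map_eq_zero]
    intro g hg
    have hg' : ∀ l, g (KaehlerDifferential.D K (Ch K x i) (x' l)) = 0 := fun l => congrFun hg l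
    have h0 : ∀ b : Ch K x i, g (KaehlerDifferential.D K (Ch K x i) b) = 0 := by
      intro b
      obtain ⟨N, G, hG⟩ := chart_form x i hxi b b.2
      have h1 : b * x' i ^ N = aeval x' G := by
        apply Subtype.ext
        have h2 := MvPolynomial.aeval_algebraMap_apply L x' G
        change (b : L) * x i ^ N = _
        rw [hG]
        exact h2
      have h2 : g (KaehlerDifferential.D K (Ch K x i) _) =
        g (KaehlerDifferential.D K (Ch K x i) _) := congrArg
          (fun u => g (KaehlerDifferential.D K (Ch K x i) u)) h1
      rw [der_aeval, Derivation.leibniz, Derivation.leibniz_pow] at h2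
      simp only [map_add, map_sum, map_nsmul, LinearMap.map_smul, hg', smul_zero, zero_add,
        Finset.sum_const_zero] at h2
      have h3 : (x' i ^ N) • g (KaehlerDifferential.D K (Ch K x i) b) =
          (y i) ^ N * g (KaehlerDifferential.D K (Ch K x i) b) := by
        rw [Algebra.smul_def]
        change ev (x' i ^ N) * _ = _
        rw [map_pow, hev i]
      rw [h3] at h2
      rcases mul_eq_zero.1 h2 with h4 | h4
      · exact absurd h4 (pow_ne_zero N hi)
      · exact h4
    refine LinearMap.ext_on_range (v := KaehlerDifferential.D K (Ch K x i))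
      (KaehlerDifferential.span_range_derivation K (Ch K x i)) (fun b => ?_)
    rw [h0 b]
    rfl
  have hrange : LinearMap.range Ψ = Tan K x y := by
    apply le_antisymm
    · rintro _ ⟨g, rfl⟩
      intro G hG
      have h1 : aeval x' G = 0 := by
        apply Subtype.ext
        have h2 := MvPolynomial.aeval_algebraMap_apply L x' G
        have h3 : aeval x G = ((aeval x' G : Ch K x i) : L) := h2
        rw [← h3, hG]
        rfl
      have h2 : g (KaehlerDifferential.D K (Ch K x i) _) =
        g (KaehlerDifferential.D K (Ch K x i) _) := congrArg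
          (fun u => g (KaehlerDifferential.D K (Ch K x i) u)) h1
      rw [der_aeval, map_zero, map_zero, map_sum] at h2
      rw [← h2]
      refine Finset.sum_congr rfl (fun l _ => ?_)
      rw [map_smul, Algebra.smul_def]
      have h3 : algebraMap (Ch K x i) K (aeval x' (pderiv l G)) = aeval y (pderiv l G) := by
        change ev (aeval x' (pderiv l G)) = _
        rw [comp_aeval_apply]
        congr 2
        funext l
        exact hev l
      rw [h3]
      rfl
    · intro v hv
      have hz : ∀ G : MvPolynomial ι K, aeval x G = 0 →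
          aeval (fun l => (TrivSqZeroExt.inl (y l) + TrivSqZeroExt.inr (v l) :
            TrivSqZeroExt K K)) G = 0 := by
        intro G hG
        rw [aeval_tsze, hzy G hG]
        have h1 : ∑ l, aeval y (pderiv l G) * v l = 0 := hv G hG
        rw [h1, TrivSqZeroExt.inl_zero, TrivSqZeroExt.inr_zero, add_zero]
      obtain ⟨f, hf⟩ := lift_chart x i hxi _ hz (by
        rw [TrivSqZeroExt.isUnit_iff_isUnit_fst]
        simpa using hi)
      have hfst : ∀ b, (f b).fst = ev b := by
        have h1 : (TrivSqZeroExt.fstHom K K K).comp f = ev := by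
          refine chart_ext x i hxi _ _ (fun l => ?_)
          rw [AlgHom.comp_apply, hf l, hev l]
          simp
        intro b
        rw [← h1]
        rfl
      have hsm : ∀ (b : Ch K x i) (t : K), b • t = ev b * t := by
        intro b t
        rw [Algebra.smul_def]
        rfl
      let δ : Derivation K (Ch K x i) K := Derivation.mk'
        ((TrivSqZeroExt.sndHom K K).comp f.toLinearMap) (by
          intro a b
          simp only [LinearMap.comp_apply, AlgHom.toLinearMap_apply, map_mul,
            TrivSqZeroExt.sndHom_apply, TrivSqZeroExt.snd_mul, hfst, op_smul_eq_smul,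
            smul_eq_mul, hsm])
      refine ⟨δ.liftKaehlerDifferential, ?_⟩
      funext l
      change δ.liftKaehlerDifferential (KaehlerDifferential.D K (Ch K x i) (x' l)) = v l
      rw [Derivation.liftKaehlerDifferential_comp_D]
      change (f (x' l)).snd = v l
      rw [hf l]
      simp
  rw [← hrange, LinearMap.finrank_range_of_inj hinj,
    (LinearMap.liftBaseChangeEquiv K (M := Ω[Ch K x i⁄K]) (N := K) (R := Ch K x i)).finrank_eq]
  have h9 : Module.finrank K (K ⊗[Ch K x i] Ω[Ch K x i⁄K] →ₗ[K] K) =
      Module.finrank K (K ⊗[Ch K x i] Ω[Ch K x i⁄K]) := Subspace.dual_finrank_eq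
  rw [h9, hfin]

end Pool.Agent.Y968.GS
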